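import Mathlib

/-!
# LW*, all Julia sets: connected sets with small image are small

`uc`: `f` holomorphic on the open set `U`, `J ⊆ U` compact, `f` not constant near the points of `J`: for `κ > 0` there is `κ₀ > 0` such that every
connected set `W ∋ z`, `z ∈ J`, with `f '' W ⊆ ball (f z) κ₀` is contained in `ball z κ`.
-/

set_option autoImplicit false

open Filter Topology Metric Set

namespace Pool.Agent.H47.LG

/-- a connected set which does not meet a circle -/
theorem in_ball {W : Set ℂ} (hW : IsPreconnected W) {a z : ℂ} {s : ℝ} (hz : z ∈ W) (hza : z ∈ ball a s)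
    (hs : ∀ y ∈ W, y ∉ sphere a s) : W ⊆ ball a s := by
  have h1 : W ⊆ ball a s ∪ (closedBall a s)ᶜ := by
    intro y hy
    by_cases h2 : y ∈ closedBall a s
    · left
      rw [← ball_union_sphere] at h2
      exact h2.resolve_right (hs y hy)
    · exact Or.inr h2
  have h3 : Disjoint (ball a s) (closedBall a s)ᶜ :=
    Set.disjoint_left.2 fun y hy hy2 => hy2 (ball_subset_closedBall hy)
  exact hW.subset_left_of_subset_union isOpen_ball isClosed_closedBall.isOpen_compl h3 h1 ⟨z, hz, hza⟩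

theorem uc {f : ℂ → ℂ} {U J : Set ℂ} (hU : IsOpen U) (hf : DifferentiableOn ℂ f U) (hJ : IsCompact J) (hJU : J ⊆ U)
    (hn : ∀ z ∈ J, ¬ ∀ᶠ w in 𝓝 z, f w = f z) {κ : ℝ} (hκ : 0 < κ) :
    ∃ κ₀ : ℝ, 0 < κ₀ ∧ ∀ z ∈ J, ∀ W : Set ℂ, IsPreconnected W → W ⊆ U → z ∈ W → (∀ y ∈ W, f y ∈ ball (f z) κ₀) →
      W ⊆ ball z κ := by
  refine hJ.induction_on (p := fun S => ∃ κ₀ : ℝ, 0 < κ₀ ∧ ∀ z ∈ S, ∀ W : Set ℂ, IsPreconnected W → W ⊆ U → z ∈ W →
    (∀ y ∈ W, f y ∈ ball (f z) κ₀) → W ⊆ ball z κ) ?_ ?_ ?_ ?_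
  · exact ⟨1, one_pos, fun z hz => absurd hz (notMem_empty z)⟩
  · rintro S T hST ⟨κ₀, h0, h1⟩
    exact ⟨κ₀, h0, fun z hz => h1 z (hST hz)⟩
  · rintro S T ⟨κ₀, h0, h1⟩ ⟨κ₁, h2, h3⟩
    refine ⟨min κ₀ κ₁, lt_min h0 h2, ?_⟩
    rintro z (hz | hz) W hW hWU hzW hy
    · exact h1 z hz W hW hWU hzW fun y hy' => ball_subset_ball (min_le_left _ _) (hy y hy')
    · exact h3 z hz W hW hWU hzW fun y hy' => ball_subset_ball (min_le_right _ _) (hy y hy')
  intro a ha
  have haU := hJU ha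
  have hAn : AnalyticAt ℂ f a := hf.analyticAt (hU.mem_nhds haU)
  have h1 : ∀ᶠ w in 𝓝[≠] a, f w ≠ f a := by
    rcases hAn.eventually_eq_or_eventually_ne (analyticAt_const (v := f a)) with h2 | h2
    · exact absurd h2 (hn a ha)
    · exact h2
  obtain ⟨s₁, hs1, h2⟩ : ∃ s₁ > 0, ∀ w ∈ ball a s₁, w ≠ a → f w ≠ f a := by
    rw [eventually_nhdsWithin_iff] at h1
    obtain ⟨s, hs, h3⟩ := Metric.eventually_nhds_iff_ball.1 h1
    exact ⟨s, hs, fun w hw hwa => h3 w hw hwa⟩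
  obtain ⟨s₂, hs2, h3⟩ := Metric.isOpen_iff.1 hU a haU
  obtain ⟨s, hs⟩ : ∃ s, s = min (min s₁ s₂) κ / 2 := ⟨_, rfl⟩
  have hm : 0 < min (min s₁ s₂) κ := lt_min (lt_min hs1 hs2) hκ
  have hs0 : 0 < s := by rw [hs]; linarith
  have e1 : s < s₁ := by
    have : min (min s₁ s₂) κ ≤ s₁ := (min_le_left _ _).trans (min_le_left _ _)
    rw [hs]; linarith
  have e2 : s < s₂ := by
    have : min (min s₁ s₂) κ ≤ s₂ := (min_le_left _ _).trans (min_le_right _ _)
    rw [hs]; linarith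
  have e3 : 2 * s ≤ κ := by
    have : min (min s₁ s₂) κ ≤ κ := min_le_right _ _
    rw [hs]; linarith
  have hne : (sphere a s).Nonempty := NormedSpace.sphere_nonempty.2 hs0.le
  have hcU : closedBall a s ⊆ U := (closedBall_subset_ball e2).trans h3
  have hc : ContinuousOn (fun w => ‖f w - f a‖) (sphere a s) :=
    ((hf.continuousOn.mono (sphere_subset_closedBall.trans hcU)).sub continuousOn_const).norm
  obtain ⟨b, hb, hmin⟩ := (isCompact_sphere a s).exists_isMinOn hne hc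
  obtain ⟨m, hmdef⟩ : ∃ m, m = ‖f b - f a‖ := ⟨_, rfl⟩
  have hm0 : 0 < m := by
    rw [hmdef]
    refine norm_pos_iff.2 (sub_ne_zero.2 (h2 b ?_ ?_))
    · rw [mem_ball]
      rw [mem_sphere] at hb
      linarith
    · rintro rfl
      rw [mem_sphere, dist_self] at hb
      linarith
  have hmle : ∀ w ∈ sphere a s, m ≤ ‖f w - f a‖ := fun w hw => by
    rw [hmdef]
    exact hmin hw
  refine ⟨ball a s ∩ {z | ‖f z - f a‖ < m / 2}, ?_, m / 2, by linarith, ?_⟩
  · refine mem_nhdsWithin_of_mem_nhds (inter_mem (ball_mem_nhds _ hs0) ?_)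
    have hcont : ContinuousAt (fun z => ‖f z - f a‖) a := ((hAn.continuousAt).sub continuousAt_const).norm
    refine hcont.eventually_lt_const ?_
    show ‖f a - f a‖ < m / 2
    rw [sub_self, norm_zero]
    linarith
  · rintro z ⟨hz1, hz2⟩ W hW hWU hzW hy
    have hz2' : ‖f z - f a‖ < m / 2 := hz2
    have h5 : W ⊆ ball a s := by
      refine in_ball hW hzW hz1 fun y hyW hyS => ?_
      have h6 := hmle y hyS
      have h7 := hy y hyW
      rw [mem_ball, dist_eq_norm] at h7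
      have h8 : ‖f y - f a‖ ≤ ‖f y - f z‖ + ‖f z - f a‖ := by
        have h9 : f y - f a = (f y - f z) + (f z - f a) := by ring
        rw [h9]
        exact norm_add_le _ _
      linarith
    intro y hyW
    have h6 := h5 hyW
    rw [mem_ball] at h6 hz1 ⊢
    have h7 := dist_triangle_right y z a
    linarith

end Pool.Agent.H47.LG
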