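import Pool.Agent.H47.LG.Pfar
import Pool.Agent.H47.LG.Po
import Pool.Agent.H81.RW.Hit

/-!
# Module Acd (LW): access sets, outcomes, states of the cut process; type (B) and empty contents

`Ac`: `G` is a connected set off `P` (distance `c r`), of size `A r`, which meets the frontier of a level set `{s < u}`. `Outc`: the outcome of the cut process: the point `z_m` is in an access set, or `z` is in a small pull back of bounded degree of a domain whose frontier is an access set.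
`Sta`: the state of the cut process at time `T`: `w` unimodal at `z_T`, all points of its content have first entrance time `n - T`; `i`: all events up to now have index `< i`.
`bst` (TYPE (B): the contents of `w` and `u` are equal). PROOF. `Ω = {5/8 < u}`, `E' = {1/2 < w} ∩ (closure Ω)ᶜ` (open), `ζ ∈ E'` (`closure Ω ⊆ {5/8 ≤ u}`), `K = connectedComponentIn E' ζ`, `G = closure K`. `{1/2 < w}` is preconnected and contains `ζ` and `v` (`w v = 1`), `v ∈ Ω`. There is `x ∈ closure K`, `1/2 < w x`, `x ∉ K`: otherwise `K` would be relatively clopen in `{1/2 < w}` and contain `v ∉ E'`.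
`x ∉ E'` (a component of the open set `E'` is relatively closed in `E'`), so `x ∈ closure Ω`; `closure K` is disjoint from the open set `Ω`, so `x ∈ frontier Ω`. On `G`: `1/2 ≤ w`, `u ≤ 5/8`. Distance from `p ∈ P`: if `u p = 1`: `≥ (3/8) r / C` (Lipschitz). If `u p = 0`: `w p = 0`, `tc'` for `w`, `z := p`, `y := x`, levels `0`, `1/2`, with `x := v` and the point `y₀` of `CR` (both have `u = 1`, `w = 1`): `r / 2 ≤ exp (8 L) ‖x - p‖` (or a point at distance `≥ δ / 2`). Size: `siz_up` (`CR P v w r`), `β = 1/2`.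
`est` (EMPTY CONTENT). PROOF. `G = closure O`. For `x ∈ O`, `p ∈ P`: `p ∉ O`, so the segment from `x` to `p` meets `frontier O` in `y` (`IsPreconnected` of the segment), `‖y - p‖ ≤ ‖x - p‖`. `frontier O ⊆ closure O`.
-/

set_option autoImplicit false

open Filter Topology Metric Set MeasureTheory

namespace Pool.Agent.H47.LG

open Pool.Agent.H81.RW

open Pool.Agent.H56.TH

/-- access sets -/
def Ac (P : Set ℂ) (v : ℂ) (u : ℂ → ℝ) (r A c : ℝ) (G : Set ℂ) : Prop :=
  IsPreconnected G ∧ G ⊆ closedBall v (A * r) ∧ (∀ x ∈ G, ∀ p ∈ P, c * r ≤ ‖x - p‖) ∧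
    ∃ s ∈ Icc (1 / 2 : ℝ) (3 / 4), (G ∩ frontier {y | s < u y}).Nonempty

/-- the outcome of the cut process -/
def Outc (f : ℂ → ℂ) (N P E : Set ℂ) (v : ℂ) (u : ℂ → ℝ) (r A c D κ : ℝ) (z : ℂ) : Prop :=
  ∃ m : ℕ, 1 ≤ m ∧ f^[m - 1] z ∈ E ∧ ((∃ G : Set ℂ, Ac P v u r A c G ∧ f^[m] z ∈ G) ∨
    ∃ O O₁ : Set ℂ, PO f N m O O₁ D ∧ z ∈ O ∧ (∀ y ∈ O, ‖y - z‖ < κ) ∧ O₁ ⊆ closedBall v (A * r) ∧
      Ac P v u r A c (frontier O₁))

/-- the state of the cut process at time `T` -/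
structure Sta (f : ℂ → ℂ) (N P E : Set ℂ) (ρ : ℂ → ENNReal) (v : ℂ) (u : ℂ → ℝ) (r A c : ℝ) (z : ℂ) (n T i : ℕ)
    (κ L D : ℝ) (w : ℂ → ℝ) : Prop where
  Tn : T ≤ n
  um : UM P w
  wz : w (f^[T] z) = 1
  sz : ∀ y, 0 < w y → ‖y - f^[T] z‖ < κ
  le : ell ρ w ≤ ENNReal.ofReal L
  ne : ∃ x ∈ P, w x = 1
  en : ∀ x ∈ P, w x = 1 → Ent f E u x (n - T)
  ix : i ≤ n - T ∨ (i = n - T + 1 ∧ (∀ x ∈ P, w x = 1 → u x = 0) ∧ f^[T - 1] z ∈ E ∧ ‖f^[T] z - v‖ ≤ A * r)
  po : ∃ (O O₁ : Set ℂ) (T₁ : ℕ), T ≤ T₁ ∧ 1 ≤ T₁ ∧ T₁ ≤ n + 1 ∧ f^[T₁ - 1] z ∈ E ∧ PO f N (T₁ - T) O O₁ D ∧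
    f^[T] z ∈ O ∧ (∀ y ∈ O, w y = 1) ∧ O₁ ⊆ closedBall v (A * r) ∧ Ac P v u r A c (frontier O₁)

private theorem acd_front {S O : Set ℂ} (hS : IsPreconnected S) (hO : IsOpen O) {x p : ℂ} (hx : x ∈ S) (hxO : x ∈ O)
    (hp : p ∈ S) (hpO : p ∉ O) : ∃ y ∈ S, y ∈ frontier O := by
  by_contra hcon
  push Not at hcon
  have h1 : S ⊆ O ∪ (closure O)ᶜ := by
    intro y hy
    by_cases h2 : y ∈ O
    · exact Or.inl h2
    · refine Or.inr fun h3 => hcon y hy ?_
      rw [hO.frontier_eq]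
      exact ⟨h3, h2⟩
  obtain ⟨y, -, hy1, hy2⟩ := hS O (closure O)ᶜ hO isClosed_closure.isOpen_compl h1 ⟨x, hx, hxO⟩
    ⟨p, hp, (h1 hp).resolve_left hpO⟩
  exact hy2 (subset_closure hy1)

/-- type (B) -/
theorem bst {L C M : ℝ} (hL : 0 ≤ L) (hC : 1 ≤ C) : ∃ A c₃ : ℝ, 1 ≤ A ∧ 0 < c₃ ∧
    ∀ {f : ℂ → ℂ} {N J P Cr : Set ℂ} {η : ℂ → ℂ → ℂ} {r₀ δ : ℝ} {ρ : ℂ → ENNReal} {v : ℂ} {u : ℂ → ℝ} {r Λ ε r₁ : ℝ},
    WW f N J P Cr η r₀ δ ρ → RG P M r₁ → Sc P ρ v u r C Λ ε → C * r < δ / 8 → 2 * r < r₁ → ∀ (w : ℂ → ℝ) (ζ : ℂ), UM P w →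
    ell ρ w ≤ ENNReal.ofReal L → (∀ y, 0 < w y → ‖y - ζ‖ < δ / 8) → (∀ x ∈ P, w x = 1 ↔ u x = 1) → w ζ = 1 → u ζ ≤ 1 / 2 →
    ∃ G : Set ℂ, Ac P v u r A c₃ G ∧ ζ ∈ G := by
  have hC0 : 0 < C := by linarith
  have hE : 0 < Real.exp (-(8 * L)) := Real.exp_pos _
  have hE1 : Real.exp (-(8 * L)) ≤ 1 := Real.exp_le_one_iff.2 (by linarith)
  refine ⟨max 1 (Real.exp (8 * L) * (2 * M)), min (3 / (8 * C)) (Real.exp (-(8 * L)) / 2), le_max_left _ _,
    lt_min (by positivity) (by positivity), ?_⟩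
  intro f N J P Cr η r₀ δ ρ v u r Λ ε r₁ h hRG hS hCr hr1 w ζ hw hl hs hiff hwz huz
  have hr0 := hS.r0
  have hrC : r ≤ C * r := le_mul_of_one_le_left hr0.le hC
  have huc : Continuous u := by
    obtain ⟨K, hK⟩ := hS.um.lip
    exact hK.continuous
  have hwc : Continuous w := by
    obtain ⟨K, hK⟩ := hw.lip
    exact hK.continuous
  have hwv : w v = 1 := (hiff v hS.vP).2 hS.uv
  obtain ⟨Ω, hΩ⟩ : ∃ Ω : Set ℂ, Ω = {y | (5 / 8 : ℝ) < u y} := ⟨_, rfl⟩
  have hΩo : IsOpen Ω := by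
    rw [hΩ]
    exact isOpen_lt continuous_const huc
  have hΩc : closure Ω ⊆ {y | (5 / 8 : ℝ) ≤ u y} := by
    refine closure_minimal ?_ (isClosed_le continuous_const huc)
    intro y hy
    rw [hΩ] at hy
    have h1 : (5 / 8 : ℝ) < u y := hy
    exact h1.le
  obtain ⟨E, hE'⟩ : ∃ E : Set ℂ, E = {y | (1 / 2 : ℝ) < w y} ∩ (closure Ω)ᶜ := ⟨_, rfl⟩
  have hEo : IsOpen E := by
    rw [hE']
    exact (isOpen_lt continuous_const hwc).inter isClosed_closure.isOpen_compl
  have hζE : ζ ∈ E := by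
    rw [hE']
    refine ⟨?_, fun h1 => ?_⟩
    · show (1 / 2 : ℝ) < w ζ
      rw [hwz]
      norm_num
    · have h2 : (5 / 8 : ℝ) ≤ u ζ := hΩc h1
      linarith
  obtain ⟨K, hK⟩ : ∃ K : Set ℂ, K = connectedComponentIn E ζ := ⟨_, rfl⟩
  have hKE : K ⊆ E := by
    rw [hK]
    exact connectedComponentIn_subset _ _
  have hKo : IsOpen K := by
    rw [hK]
    exact hEo.connectedComponentIn
  have hKp : IsPreconnected K := by
    rw [hK]
    exact isPreconnected_connectedComponentIn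
  have hζK : ζ ∈ K := by
    rw [hK]
    exact mem_connectedComponentIn hζE
  have hKc : ∀ x ∈ closure K, x ∈ E → x ∈ K := by
    intro x hx hxE
    have h1 : IsPreconnected (K ∪ {x}) := by
      refine hKp.subset_closure subset_union_left (union_subset subset_closure (singleton_subset_iff.2 hx))
    have h2 : K ∪ {x} ⊆ E := union_subset hKE (singleton_subset_iff.2 hxE)
    have h3 := h1.subset_connectedComponentIn (Or.inl hζK) h2
    rw [hK]
    exact h3 (Or.inr rfl)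
  -- the closure
  have hcw : ∀ x ∈ closure K, 1 / 2 ≤ w x := by
    intro x hx
    have h1 : closure K ⊆ {y | (1 / 2 : ℝ) ≤ w y} := by
      refine closure_minimal (fun y hy => ?_) (isClosed_le continuous_const hwc)
      have h2 := hKE hy
      rw [hE'] at h2
      have h3 : (1 / 2 : ℝ) < w y := h2.1
      exact h3.le
    exact h1 hx
  have hcu : ∀ x ∈ closure K, u x ≤ 5 / 8 := by
    intro x hx
    have h1 : closure K ⊆ {y | u y ≤ (5 / 8 : ℝ)} := by
      refine closure_minimal (fun y hy => ?_) (isClosed_le huc continuous_const)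
      have h2 := hKE hy
      rw [hE'] at h2
      have h3 : y ∉ Ω := fun h => h2.2 (subset_closure h)
      rw [hΩ] at h3
      have h4 : ¬ (5 / 8 : ℝ) < u y := h3
      exact not_lt.1 h4
    exact h1 hx
  refine ⟨closure K, ⟨hKp.closure, ?_, ?_, ?_⟩, subset_closure hζK⟩
  · intro x hx
    rw [mem_closedBall_iff_norm]
    have hsv : ∀ y, 0 < w y → ‖y - v‖ < δ := by
      intro y hy
      have h1 := hs y hy
      have h2 := hs v (by rw [hwv]; exact one_pos)
      have h3 : y - v = (y - ζ) - (v - ζ) := by ring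
      have h4 := norm_sub_le (y - ζ) (v - ζ)
      rw [← h3] at h4
      linarith [h.hδ]
    have hcr : CR P v w r := by
      obtain ⟨⟨y, hy, h1, h2⟩, h3⟩ := hS.cr
      exact ⟨⟨y, hy, (hiff y hy).2 h1, h2⟩, fun y hy h4 => h3 y hy ((hiff y hy).1 h4)⟩
    have h1 := siz_up h hS.vP hRG hL hw hwv hsv hl hr0 hr1 hcr (β := 1 / 2) (by norm_num) (hcw x hx)
    have h2 : Real.exp (4 * (L / (1 / 2))) * (2 * M * r) = Real.exp (8 * L) * (2 * M) * r := by
      rw [show 4 * (L / (1 / 2)) = 8 * L by ring]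
      ring
    rw [h2] at h1
    exact h1.trans (mul_le_mul_of_nonneg_right (le_max_right _ _) hr0.le)
  · intro x hx p hp
    rcases hS.um.va p hp with hup | hup
    · -- content zero
      have hwp : w p = 0 := by
        rcases hw.va p hp with h1 | h1
        · exact h1
        · have h2 := (hiff p hp).1 h1
          rw [hup] at h2
          exact absurd h2 zero_ne_one
      have hc1 : min (3 / (8 * C)) (Real.exp (-(8 * L)) / 2) * r ≤ Real.exp (-(8 * L)) / 2 * r :=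
        mul_le_mul_of_nonneg_right (min_le_right _ _) hr0.le
      refine hc1.trans ?_
      obtain ⟨⟨y₀, hy₀, hu₀, hd₀⟩, -⟩ := hS.cr
      have hfar : ∃ x' : ℂ, w x' = 1 ∧ r / 2 ≤ ‖x' - p‖ := by
        by_cases h1 : r / 2 ≤ ‖v - p‖
        · exact ⟨v, hwv, h1⟩
        · refine ⟨y₀, (hiff y₀ hy₀).2 hu₀, ?_⟩
          have h2 : y₀ - v = (y₀ - p) - (v - p) := by ring
          have h3 := norm_sub_le (y₀ - p) (v - p)
          rw [← h2, hd₀] at h3
          linarith
      obtain ⟨x', hx', hr'⟩ := hfar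
      by_cases hδ : ‖x' - p‖ < δ
      · have h1 := tc' h (ul_um hw) (a := 0) (b := 1 / 2) le_rfl (by norm_num) hL hl (z := p) (x := x') (y := x) hp
          (Or.inl hwp.le) (Or.inr (hcw x hx)) (by rw [hx']; norm_num) hδ
        have h2 : 4 * (L / (1 / 2 - 0)) = 8 * L := by ring
        rw [h2] at h1
        have h3 : Real.exp (-(8 * L)) * Real.exp (8 * L) = 1 := by
          rw [← Real.exp_add, neg_add_cancel, Real.exp_zero]
        calc Real.exp (-(8 * L)) / 2 * r = Real.exp (-(8 * L)) * (r / 2) := by ring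
          _ ≤ Real.exp (-(8 * L)) * (Real.exp (8 * L) * ‖x - p‖) :=
              mul_le_mul_of_nonneg_left (hr'.trans h1) hE.le
          _ = ‖x - p‖ := by rw [← mul_assoc, h3, one_mul]
      · have h1 := hs x' (by rw [hx']; exact one_pos)
        have h2 := hs x (by have := hcw x hx; linarith)
        have h3 : x' - p = (x' - ζ) - (x - ζ) + (x - p) := by ring
        have h4 : ‖x' - p‖ ≤ ‖x' - ζ‖ + ‖x - ζ‖ + ‖x - p‖ := by
          rw [h3]
          exact (norm_add_le _ _).trans (add_le_add_left (norm_sub_le _ _) _)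
        have h5 : Real.exp (-(8 * L)) / 2 * r ≤ 1 / 2 * r :=
          mul_le_mul_of_nonneg_right (by linarith) hr0.le
        push Not at hδ
        linarith
    · have hc1 : min (3 / (8 * C)) (Real.exp (-(8 * L)) / 2) * r ≤ 3 / (8 * C) * r :=
        mul_le_mul_of_nonneg_right (min_le_left _ _) hr0.le
      refine hc1.trans ?_
      have h1 := hS.lip p x
      rw [hup, norm_sub_rev] at h1
      have h2 := hcu x hx
      have h3 : (3 / 8 : ℝ) ≤ |1 - u x| := (by linarith : (3 / 8 : ℝ) ≤ 1 - u x).trans (le_abs_self _)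
      have h4 : (3 / 8 : ℝ) ≤ C / r * ‖x - p‖ := h3.trans h1
      have h5 : 3 / (8 * C) * r = 3 / 8 * (r / C) := by
        field_simp
      rw [h5]
      calc 3 / 8 * (r / C) ≤ C / r * ‖x - p‖ * (r / C) := mul_le_mul_of_nonneg_right h4 (by positivity)
        _ = ‖x - p‖ := by
          field_simp
  · refine ⟨5 / 8, ⟨by norm_num, by norm_num⟩, ?_⟩
    rw [← hΩ]
    have hSp : IsPreconnected {y | (1 / 2 : ℝ) < w y} := hw.co _ (by norm_num) (by norm_num)
    have hvΩ : v ∈ Ω := by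
      rw [hΩ]
      show (5 / 8 : ℝ) < u v
      rw [hS.uv]
      norm_num
    have hvK : v ∉ K := by
      intro h1
      have h2 := hKE h1
      rw [hE'] at h2
      exact h2.2 (subset_closure hvΩ)
    obtain ⟨x, hxS, hxf⟩ := acd_front hSp hKo (x := ζ) (p := v)
      (by show (1 / 2 : ℝ) < w ζ; rw [hwz]; norm_num) hζK (by show (1 / 2 : ℝ) < w v; rw [hwv]; norm_num) hvK
    rw [hKo.frontier_eq] at hxf
    refine ⟨x, hxf.1, ?_⟩
    have hxE : x ∉ E := fun h1 => hxf.2 (hKc x hxf.1 h1)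
    rw [hΩo.frontier_eq]
    refine ⟨?_, ?_⟩
    · by_contra h1
      apply hxE
      rw [hE']
      exact ⟨hxS, h1⟩
    · intro h1
      have h2 := hcu x hxf.1
      rw [hΩ] at h1
      exact absurd h1 (not_lt.2 h2)

/-- empty content -/
theorem est {P : Set ℂ} {v : ℂ} {u : ℂ → ℝ} {r A c : ℝ} {O : Set ℂ} (hO : IsOpen O) (hc : IsPreconnected O)
    (hP : Disjoint O P) (hA : O ⊆ closedBall v (A * r)) (hf : Ac P v u r A c (frontier O)) : Ac P v u r A c (closure O) := by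
  obtain ⟨-, -, h3, s, hs, h4⟩ := hf
  refine ⟨hc.closure, closure_minimal hA isClosed_closedBall, ?_, s, hs, h4.mono (inter_subset_inter_left _ frontier_subset_closure)⟩
  intro x hx p hp
  by_cases hxO : x ∈ O
  · have hpO : p ∉ O := fun h1 => Set.disjoint_left.1 hP h1 hp
    obtain ⟨y, hy, hyf⟩ := acd_front (convex_segment (𝕜 := ℝ) x p).isPreconnected hO (left_mem_segment ℝ x p) hxO
      (right_mem_segment ℝ x p) hpO
    refine (h3 y hyf p hp).trans ?_
    rw [segment_eq_image'] at hy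
    obtain ⟨t, ht, rfl⟩ := hy
    have h5 : x + t • (p - x) - p = (1 - t) • (x - p) := by
      simp only [smul_sub, sub_smul, one_smul]
      ring
    rw [h5, norm_smul, Real.norm_of_nonneg (by linarith [ht.2])]
    exact mul_le_of_le_one_left (norm_nonneg _) (by linarith [ht.1])
  · refine h3 x ?_ p hp
    rw [hO.frontier_eq]
    exact ⟨hx, hxO⟩

end Pool.Agent.H47.LG
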