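import Pool.Agent.H47.LG.Acd
import Pool.Agent.H47.LG.Near

/-!
# Module Adv2 (LW): CASE (2) OF THE ROUND (A TYPE 2 EVENT)

`w` (the `w'` of the header of Adv.lean) is unimodal at `z_T`, all points of its content have first entrance time `n - T`, there is no type 1 event at `T`, `a` is a critical point with `f a` in the content, `z_(T - 1)` is in the chart of `a`.
`adv2`: the new state at time `T - 1` with the index `n - T + 1`, length `2 L`, degree `2 D`; `n - T` is the index of a critical pass (`Qs` of Adv.lean, written out).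
`same_cr`: two critical points whose charts contain `x`, `f x` near to both critical values, are equal.
-/

set_option autoImplicit false

open Filter Topology Metric Set MeasureTheory

namespace Pool.Agent.H47.LG

open Pool.Agent.H81.RW

open Pool.Agent.H56.TH

variable {f : ℂ → ℂ} {N J P Cr : Set ℂ} {η : ℂ → ℂ → ℂ} {r₀ δ : ℝ} {ρ : ℂ → ENNReal}

theorem same_cr (h : WW f N J P Cr η r₀ δ ρ) : ∃ κ : ℝ, 0 < κ ∧ ∀ {c a x : ℂ}, c ∈ Cr → a ∈ Cr → x ∈ η c '' ball 0 r₀ →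
    x ∈ η a '' ball 0 r₀ → ‖f x - f c‖ < κ → ‖f x - f a‖ < κ → a = c := by
  obtain ⟨ε, hε, h1⟩ := cr_sep h
  obtain ⟨κ, hκ, h2⟩ := ch_near h (half_pos hε)
  refine ⟨κ, hκ, fun {c a x} hc ha hx hx' h3 h4 => h1 a ha c hc ?_⟩
  have h5 := h2 c hc x hx h3
  have h6 := h2 a ha x hx' h4
  calc ‖a - c‖ = ‖(x - c) - (x - a)‖ := by congr 1; ring
    _ ≤ ‖x - c‖ + ‖x - a‖ := norm_sub_le _ _
    _ < ε := by linarith

theorem adv2 (h : WW f N J P Cr η r₀ δ ρ) {κ : ℝ} (hκ : 0 < κ) : ∃ κ' : ℝ, 0 < κ' ∧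
    ∀ {E : Set ℂ} {u w : ℂ → ℝ} {v : ℂ} {r A c₃ L D : ℝ} {z a : ℂ} {n T : ℕ},
      (∀ x y, x ∈ E → u (f x) = 1 → ‖y - x‖ < κ → y ∈ E) → 1 ≤ T → T ≤ n → UM P w → ell ρ w ≤ ENNReal.ofReal L →
      w (f^[T] z) = 1 → (∀ y, 0 < w y → ‖y - f^[T] z‖ < κ') → (∀ x ∈ P, w x = 1 → Ent f E u x (n - T)) →
      0 ≤ D → ¬ (f^[T - 1] z ∈ E ∧ ∃ x ∈ P, w x = 1 ∧ u x = 1) → a ∈ Cr → w (f a) = 1 → f^[T - 1] z ∈ η a '' ball 0 r₀ →
      (∃ (O O₁ : Set ℂ) (T₁ : ℕ), T ≤ T₁ ∧ 1 ≤ T₁ ∧ T₁ ≤ n + 1 ∧ f^[T₁ - 1] z ∈ E ∧ PO f N (T₁ - T) O O₁ D ∧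
        f^[T] z ∈ O ∧ (∀ y ∈ O, w y = 1) ∧ O₁ ⊆ closedBall v (A * r) ∧ Ac P v u r A c₃ (frontier O₁)) →
      (∃ a ∈ Cr, Ent f E u (f a) (n - T)) ∧
        ∃ w₁ : ℂ → ℝ, Sta f N P E ρ v u r A c₃ z n (T - 1) (n - T + 1) κ (2 * L) (2 * D) w₁ := by
  obtain ⟨κ', hκ', H⟩ := crs h hκ
  refine ⟨κ', hκ', ?_⟩
  intro E u w v r A c₃ L D z a n T hE hT hTn hw hL hwz hsz hen hD hno ha hwa hza hpo
  have hfT : f (f^[T - 1] z) = f^[T] z := by
    rw [← Function.iterate_succ_apply' f (T - 1)]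
    have e1 : (T - 1).succ = T := by omega
    rw [e1]
  have haP : a ∈ P := h.CP ha
  obtain ⟨hts, w₁, hw₁, hw₁f, hw₁s, hw₁l⟩ := H a ha w (f^[T] z) (f^[T - 1] z) hw hsz hwa hza (by rw [hfT]; exact hwz)
  obtain ⟨O, O₁, T₁, h1, h2, h3, h4, hPO, hzO, hO1, hO2, hO3⟩ := hpo
  have hac : a ∈ η a '' ball 0 r₀ := ⟨0, mem_ball_self h.hr, h.η0 a ha⟩
  obtain ⟨O', hPO', hzO', hO'⟩ := po_cr h ha hw hts hD hPO hO1 hza (by rw [hfT]; exact hzO)
  refine ⟨⟨a, ha, hen _ (h.Pf a haP) hwa⟩, w₁, ?_⟩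
  have hell : ell ρ w₁ ≤ ENNReal.ofReal (2 * L) := by
    refine hw₁l.trans ?_
    rw [ENNReal.ofReal_mul (by norm_num : (0 : ℝ) ≤ 2), ENNReal.ofReal_ofNat]
    exact mul_le_mul_right hL _
  have hentry : ∀ x ∈ P, w₁ x = 1 → Ent f E u x (n - (T - 1)) := by
    intro x hx hx1
    obtain ⟨hxa, hxz⟩ := hw₁s x (by rw [hx1]; exact one_pos)
    have hwfx : w (f x) = 1 := by rw [← hw₁f x hxa, hx1]
    have h5 := hen _ (h.Pf x hx) hwfx
    have h6 : ∀ i < 1, ¬ Hit f E u x i := by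
      intro i hi
      have hi0 : i = 0 := by omega
      subst hi0
      rintro ⟨h7, h8⟩
      have h7' : x ∈ E := h7
      have h8' : u (f x) = 1 := h8
      refine hno ⟨hE x _ h7' h8' ?_, f x, h.Pf x hx, hwfx, h8'⟩
      rw [norm_sub_rev]
      exact hxz
    have h9 := ent_add (k := 1) (j := n - T) (x := x) (by rw [Function.iterate_one]; exact h5) h6
    rw [show n - (T - 1) = 1 + (n - T) by omega]
    exact h9
  refine ⟨by omega, hw₁, ?_, fun y hy => (hw₁s y hy).2, hell, ⟨a, haP, by rw [hw₁f a hac]; exact hwa⟩, hentry, Or.inl (by omega), ?_⟩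
  · rw [hw₁f _ hza, hfT]
    exact hwz
  · refine ⟨O', O₁, T₁, by omega, h2, h3, h4, ?_, hzO', fun y hy => ?_, hO2, hO3⟩
    · rw [show T₁ - (T - 1) = T₁ - T + 1 by omega]
      exact hPO'
    · obtain ⟨h5, h6⟩ := hO' hy
      rw [hw₁f y h5]
      exact hO1 _ h6

end Pool.Agent.H47.LG
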