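import Pool.Agent.H47.LG.Stp

/-!
# Module Advd (LW): definitions for the round of the cut process (used by Adv1, Adv2, Adv)

`Bs`: indices of cuts, `Qs`: indices of critical passes, `Fst`: first entrance.
-/

set_option autoImplicit false

open Filter Topology Metric Set MeasureTheory

namespace Pool.Agent.H47.LG

open Pool.Agent.H81.RW

open Pool.Agent.H56.TH

/-- indices of cuts -/
def Bs (f : ℂ → ℂ) (P E : Set ℂ) (u : ℂ → ℝ) (g : ℝ) (k : ℕ) : Prop :=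
  ∃ a ∈ P, u a = 1 ∧ ∀ a' ∈ P, ‖a' - a‖ < g → Ent f E u a' k

/-- indices of critical passes -/
def Qs (f : ℂ → ℂ) (Cr E : Set ℂ) (u : ℂ → ℝ) (k : ℕ) : Prop := ∃ a ∈ Cr, Ent f E u (f a) k

/-- the first entrance of `z` -/
def Fst (f : ℂ → ℂ) (E : Set ℂ) (u : ℂ → ℝ) (z : ℂ) (n : ℕ) : Prop :=
  (f^[n] z ∈ E ∧ 1 / 2 < u (f^[n + 1] z)) ∧ ∀ t < n, ¬ (f^[t] z ∈ E ∧ 1 / 2 < u (f^[t + 1] z))

end Pool.Agent.H47.LG
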