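import Pool.Agent.H47.LG.Sta0

/-!
# Module Mnp (LW): THE CUT PROCESS

`bs_card`. PROOF. For `k ∈ S` choose `pt k ∈ P`, `u (pt k) = 1`, `‖a' - pt k‖ < g r → Ent a' k`. `‖pt k - v‖ ≤ r` (`CR`). For `k ≠ l`: `‖pt k - pt l‖ ≥ g r`, otherwise `Ent (pt l) k` and `Ent (pt l) l` (`‖pt l - pt l‖ = 0 < g r`), `k = l` (`ent_uniq`). `pack` with `c := g`.
`qs_card`. PROOF. `k ↦ a ∈ Cr` with `Ent (f a) k` is injective (`ent_uniq`): `Finset.card_le_card_of_injOn` into `Cf.toFinset`, `Set.ncard_eq_toFinset_card`.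
`sta0` (START): module `Sta0`.
`main`. PROOF. `m = Cr.ncard`, `L₀ = 2 (Λ + 1)`, `Lm = L₀ 2 ^ (m + 1)`, `g = gapc Λ (2 Lm)`, `N₁` from `pack g`, `K = N₁ + m`, `σ ∈ (0, 1)` with `(1 + σ) ^ K ≤ 2`. `ε` = the minimum of that of `adv` and `1 / 8`. `A = max A₀ C`, `c₃ = min c₀ (1 / (2 C))`.
CLAIM (`mn_ind`) by induction on `t = K + 1 - j`: a state with index `i`, size `κs t`, finite sets `SB`, `SQ` of indices `< i` of cuts and critical passes, `SB.card + SQ.card = j`, `L = L₀ 2 ^ SQ.card (1 + σ) ^ j`, `D = 2 ^ (SQ.card + 1)`, has the outcome. `bs_card`, `qs_card`: `SB.card ≤ N₁`, `SQ.card ≤ m`, so `j ≤ K`, `L ≤ Lm`, `D ≤ 2 ^ (m + 1)`. `adv`: the outcome (monotone in `κ`, `D`)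
or a new state with `i' > i`, and `insert (i' - 1) SB` or `insert (i' - 1) SQ` (`i' - 1 ≥ i`: new element; all elements `< i'`), length factor `(1 + σ)` or `2 (1 + σ)`. Start: `sta0` with `SB = SQ = ∅`.
-/

set_option autoImplicit false

open Filter Topology Metric Set MeasureTheory

namespace Pool.Agent.H47.LG

open Pool.Agent.H81.RW

open Pool.Agent.H56.TH

variable {f : ℂ → ℂ} {N J P Cr : Set ℂ} {η : ℂ → ℂ → ℂ} {r₀ δ : ℝ} {ρ : ℂ → ENNReal}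

theorem bs_card {g : ℝ} (hg : 0 < g) : ∃ n : ℕ, ∀ {f : ℂ → ℂ} {P E : Set ℂ} {ρ : ℂ → ENNReal} {v : ℂ} {u : ℂ → ℝ} {r C Λ ε : ℝ},
    Sc P ρ v u r C Λ ε → ∀ S : Finset ℕ, (∀ k ∈ S, Bs f P E u (g * r) k) → S.card ≤ n := by
  obtain ⟨n, hn⟩ := pack hg
  refine ⟨n, ?_⟩
  intro f P E ρ v u r C Λ ε hS S hB
  have hr := hS.r0
  have hB' : ∀ k ∈ S, ∃ a : ℂ, a ∈ P ∧ u a = 1 ∧ ∀ a' ∈ P, ‖a' - a‖ < g * r → Ent f E u a' k := by
    intro k hk
    obtain ⟨a, h1, h2, h3⟩ := hB k hk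
    exact ⟨a, h1, h2, h3⟩
  choose! pt hpP hpu hpe using hB'
  refine hn v r S pt hr (fun k hk => hS.cr.2 _ (hpP k hk) (hpu k hk)) ?_
  intro k hk l hl hkl
  by_contra hcon
  rw [not_le] at hcon
  apply hkl
  have h1 : Ent f E u (pt l) k := by
    apply hpe k hk _ (hpP l hl)
    rw [norm_sub_rev]
    exact hcon
  have h2 : Ent f E u (pt l) l := by
    apply hpe l hl _ (hpP l hl)
    rw [sub_self, norm_zero]
    exact mul_pos hg hr
  exact ent_uniq h1 h2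

theorem qs_card {f : ℂ → ℂ} {Cr E : Set ℂ} {u : ℂ → ℝ} (hC : Cr.Finite) (S : Finset ℕ) (hS : ∀ k ∈ S, Qs f Cr E u k) :
    S.card ≤ Cr.ncard := by
  have h1 : ∀ k ∈ S, ∃ a : ℂ, a ∈ Cr ∧ Ent f E u (f a) k := by
    intro k hk
    obtain ⟨a, h2, h3⟩ := hS k hk
    exact ⟨a, h2, h3⟩
  choose! a ha hE using h1
  rw [Set.ncard_eq_toFinset_card Cr hC]
  refine Finset.card_le_card_of_injOn a (fun k hk => hC.mem_toFinset.2 (ha k hk)) ?_
  intro k hk l hl hkl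
  have h2 := hE k hk
  have h3 := hE l hl
  rw [show a l = a k from hkl.symm] at h3
  exact ent_uniq h2 h3

theorem outc_mono {f : ℂ → ℂ} {N P E : Set ℂ} {v : ℂ} {u : ℂ → ℝ} {r A c D D' κ κ' : ℝ} {z : ℂ}
    (h : Outc f N P E v u r A c D κ z) (hD : D ≤ D') (hκ : κ ≤ κ') : Outc f N P E v u r A c D' κ' z := by
  obtain ⟨m, hm, hE, h1⟩ := h
  refine ⟨m, hm, hE, h1.imp id ?_⟩
  rintro ⟨O, O₁, hO, hz, hs, h2, h3⟩
  exact ⟨O, O₁, po_mono hO hD, hz, fun y hy => (hs y hy).trans_le hκ, h2, h3⟩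

private theorem mn_sta {f : ℂ → ℂ} {N P E : Set ℂ} {ρ : ℂ → ENNReal} {v : ℂ} {u : ℂ → ℝ} {r A c : ℝ} {z : ℂ} {n T i : ℕ}
    {κ κ' L L' D D' : ℝ} {w : ℂ → ℝ} (h : Sta f N P E ρ v u r A c z n T i κ L D w) (hκ : κ ≤ κ') (hL : L = L') (hD : D = D') :
    Sta f N P E ρ v u r A c z n T i κ' L' D' w := by
  subst hL hD
  exact ⟨h.Tn, h.um, h.wz, fun y hy => (h.sz y hy).trans_le hκ, h.le, h.ne, h.en, h.ix, h.po⟩

theorem main (h : WW f N J P Cr η r₀ δ ρ) {c : ℂ} (hc : c ∈ Cr) {M r₁ : ℝ} (hr : RG P M r₁) {Λ : ℝ} (hΛ : 1 ≤ Λ) :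
    ∃ ε : ℝ, 0 < ε ∧ ε < 1 ∧ ∀ C : ℝ, 1 ≤ C → ∃ A c₃ : ℝ, 1 ≤ A ∧ 0 < c₃ ∧
      ∀ κ : ℝ, 0 < κ → ∃ κ₀ : ℝ, 0 < κ₀ ∧ ∀ (u : ℂ → ℝ) (r : ℝ), Sc P ρ (f c) u r C Λ ε → C * r < κ₀ → ∀ z ∈ J,
      (∀ j, f^[j] z ∈ N ∧ infDist (f^[j] z) P < δ) → ∀ n, Fst f (η c '' ball 0 r₀) u z n →
      Outc f N P (η c '' ball 0 r₀) (f c) u r A c₃ (2 ^ (Cr.ncard + 1)) κ z := by
  obtain ⟨m, hm⟩ : ∃ m, m = Cr.ncard := ⟨_, rfl⟩
  obtain ⟨L₀, hL₀⟩ : ∃ L₀ : ℝ, L₀ = 2 * (Λ + 1) := ⟨_, rfl⟩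
  have hL₀1 : 1 ≤ L₀ := by
    rw [hL₀]
    linarith
  obtain ⟨Lm, hLm⟩ : ∃ Lm : ℝ, Lm = L₀ * 2 ^ (m + 1) := ⟨_, rfl⟩
  have hLm1 : 1 ≤ Lm := by
    rw [hLm]
    exact one_le_mul_of_one_le_of_one_le hL₀1 (one_le_pow₀ (by norm_num))
  obtain ⟨N₁, hN₁⟩ := bs_card (gapc_pos Λ (2 * Lm))
  obtain ⟨K, hK⟩ : ∃ K, K = N₁ + m := ⟨_, rfl⟩
  obtain ⟨σ, hσ, hσ1, hσK⟩ : ∃ σ : ℝ, 0 < σ ∧ σ < 1 ∧ (1 + σ) ^ K ≤ 2 := by
    have hK1 : (0 : ℝ) < K + 1 := by positivity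
    have hl0 : 0 < Real.log 2 := Real.log_pos (by norm_num)
    have hl1 : Real.log 2 < 1 := by
      have := Real.log_two_lt_d9
      linarith
    refine ⟨Real.log 2 / (K + 1), by positivity, ?_, ?_⟩
    · rw [div_lt_one hK1]
      have : (0 : ℝ) ≤ K := Nat.cast_nonneg K
      linarith
    · have h1 : 1 + Real.log 2 / (K + 1) ≤ Real.exp (Real.log 2 / (K + 1)) := by
        rw [add_comm]
        exact Real.add_one_le_exp _
      calc (1 + Real.log 2 / (K + 1)) ^ K ≤ (Real.exp (Real.log 2 / (K + 1))) ^ K :=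
            pow_le_pow_left₀ (by positivity) h1 K
        _ = Real.exp (K * (Real.log 2 / (K + 1))) := by rw [← Real.exp_nat_mul]
        _ ≤ Real.exp (Real.log 2) := by
            apply Real.exp_le_exp.2
            rw [← mul_div_assoc, div_le_iff₀ hK1]
            nlinarith
        _ = 2 := Real.exp_log (by norm_num)
  obtain ⟨ε₀, hε₀, hε₀1, Hadv⟩ := adv h hc hr hΛ hLm1 hσ hσ1
  refine ⟨min ε₀ (1 / 8), lt_min hε₀ (by norm_num), (min_le_left _ _).trans_lt hε₀1, ?_⟩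
  intro C hC
  obtain ⟨A₀, c₀, hA₀, hc₀, Hadv⟩ := Hadv (min ε₀ (1 / 8)) C (lt_min hε₀ (by norm_num)) (min_le_left _ _) hC
  have hCp : 0 < C := by linarith
  refine ⟨max A₀ C, min c₀ (1 / (2 * C)), hA₀.trans (le_max_left _ _), lt_min hc₀ (by positivity), ?_⟩
  obtain ⟨A, hA⟩ : ∃ A, A = max A₀ C := ⟨_, rfl⟩
  obtain ⟨c₃, hc₃⟩ : ∃ c₃, c₃ = min c₀ (1 / (2 * C)) := ⟨_, rfl⟩
  obtain ⟨ε, hε⟩ : ∃ ε, ε = min ε₀ (1 / 8) := ⟨_, rfl⟩
  rw [← hA, ← hc₃, ← hε]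
  rw [← hε] at Hadv
  have hε0 : 0 < ε := by
    rw [hε]
    exact lt_min hε₀ (by norm_num)
  have hε8 : ε ≤ 1 / 8 := by
    rw [hε]
    exact min_le_right _ _
  have hAA : A₀ ≤ A := by
    rw [hA]
    exact le_max_left _ _
  have hCA : C ≤ A := by
    rw [hA]
    exact le_max_right _ _
  have hc₃0 : 0 < c₃ := by
    rw [hc₃]
    exact lt_min hc₀ (by positivity)
  have hc₃c : c₃ ≤ c₀ := by
    rw [hc₃]
    exact min_le_left _ _
  have hc₃C : c₃ ≤ 1 / (2 * C) := by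
    rw [hc₃]
    exact min_le_right _ _
  have claim : ∀ t : ℕ, ∀ κ : ℝ, 0 < κ → ∃ κ' : ℝ, 0 < κ' ∧ ∀ (u : ℂ → ℝ) (r : ℝ), Sc P ρ (f c) u r C Λ ε → C * r < κ' →
      ∀ z ∈ J, (∀ j, f^[j] z ∈ N ∧ infDist (f^[j] z) P < δ) → ∀ n, Fst f (η c '' ball 0 r₀) u z n →
      ∀ (T i : ℕ) (w : ℂ → ℝ) (SB SQ : Finset ℕ),
      (∀ k ∈ SB, k < i ∧ Bs f P (η c '' ball 0 r₀) u (gapc Λ (2 * Lm) * r) k) →
      (∀ k ∈ SQ, k < i ∧ Qs f Cr (η c '' ball 0 r₀) u k) → SB.card + SQ.card + t = K + 1 →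
      Sta f N P (η c '' ball 0 r₀) ρ (f c) u r A c₃ z n T i κ' (L₀ * 2 ^ SQ.card * (1 + σ) ^ (SB.card + SQ.card))
        (2 ^ (SQ.card + 1)) w → Outc f N P (η c '' ball 0 r₀) (f c) u r A c₃ (2 ^ (Cr.ncard + 1)) κ z := by
    intro t
    induction t with
    | zero =>
      intro κ hκ
      refine ⟨1, one_pos, ?_⟩
      intro u r hS _ z _ _ n _ T i w SB SQ hSB hSQ hcard _
      exfalso
      have h1 := hN₁ hS SB (fun k hk => (hSB k hk).2)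
      have h2 := qs_card h.Cf SQ (fun k hk => (hSQ k hk).2)
      omega
    | succ t ih =>
      intro κ hκ
      obtain ⟨κ₁, hκ₁, H1⟩ := ih κ hκ
      obtain ⟨κ', hκ', H2⟩ := Hadv A c₃ hAA hc₃0 hc₃c (min κ κ₁) (lt_min hκ hκ₁)
      refine ⟨min κ' κ₁, lt_min hκ' hκ₁, ?_⟩
      intro u r hS hCr z hz horb n hfst T i w SB SQ hSB hSQ hcard hst
      have h1 := hN₁ hS SB (fun k hk => (hSB k hk).2)
      have h2 := qs_card h.Cf SQ (fun k hk => (hSQ k hk).2)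
      rw [← hm] at h2
      have hp1 : (1 : ℝ) ≤ (1 + σ) ^ (SB.card + SQ.card) := one_le_pow₀ (by linarith)
      have hp2 : (1 + σ) ^ (SB.card + SQ.card) ≤ 2 :=
        (pow_le_pow_right₀ (by linarith) (by omega)).trans hσK
      have hq1 : (1 : ℝ) ≤ 2 ^ SQ.card := one_le_pow₀ (by norm_num)
      have hq2 : (2 : ℝ) ^ SQ.card ≤ 2 ^ m := pow_le_pow_right₀ (by norm_num) h2
      have hL1 : 1 ≤ L₀ * 2 ^ SQ.card * (1 + σ) ^ (SB.card + SQ.card) :=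
        one_le_mul_of_one_le_of_one_le (one_le_mul_of_one_le_of_one_le hL₀1 hq1) hp1
      have hLle : L₀ * 2 ^ SQ.card * (1 + σ) ^ (SB.card + SQ.card) ≤ Lm := by
        rw [hLm, pow_succ, ← mul_assoc]
        exact mul_le_mul (mul_le_mul_of_nonneg_left hq2 (by linarith)) hp2 (by positivity) (by positivity)
      have hD1 : (1 : ℝ) ≤ 2 ^ (SQ.card + 1) := one_le_pow₀ (by norm_num)
      rcases H2 u r hS (hCr.trans_le (min_le_left _ _)) z hz horb n hfst T i _ _ w hL1 hLle hD1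
          (mn_sta hst (min_le_left _ _) rfl rfl) with h3 | ⟨T', i', w', hi, h3⟩
      · refine outc_mono h3 (pow_le_pow_right₀ (by norm_num) ?_) (min_le_left _ _)
        omega
      · rcases h3 with ⟨h4, h5⟩ | ⟨h4, h5⟩
        · have hnot : i' - 1 ∉ SB := by
            intro hmem
            have := (hSB _ hmem).1
            omega
          have hcd : (insert (i' - 1) SB).card = SB.card + 1 := Finset.card_insert_of_notMem hnot
          refine H1 u r hS (hCr.trans_le (min_le_right _ _)) z hz horb n hfst T' i' w' (insert (i' - 1) SB) SQ ?_ ?_ (by omega)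
            (mn_sta h5 (min_le_right _ _) ?_ rfl)
          · intro k hk
            rcases Finset.mem_insert.1 hk with hk | hk
            · subst hk
              exact ⟨by omega, h4⟩
            · exact ⟨(hSB k hk).1.trans hi, (hSB k hk).2⟩
          · intro k hk
            exact ⟨(hSQ k hk).1.trans hi, (hSQ k hk).2⟩
          · rw [hcd, show SB.card + 1 + SQ.card = SB.card + SQ.card + 1 by omega, pow_succ]
            ring
        · have hnot : i' - 1 ∉ SQ := by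
            intro hmem
            have := (hSQ _ hmem).1
            omega
          have hcd : (insert (i' - 1) SQ).card = SQ.card + 1 := Finset.card_insert_of_notMem hnot
          refine H1 u r hS (hCr.trans_le (min_le_right _ _)) z hz horb n hfst T' i' w' SB (insert (i' - 1) SQ) ?_ ?_ (by omega)
            (mn_sta h5 (min_le_right _ _) ?_ ?_)
          · intro k hk
            exact ⟨(hSB k hk).1.trans hi, (hSB k hk).2⟩
          · intro k hk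
            rcases Finset.mem_insert.1 hk with hk | hk
            · subst hk
              exact ⟨by omega, h4⟩
            · exact ⟨(hSQ k hk).1.trans hi, (hSQ k hk).2⟩
          · rw [hcd, show SB.card + (SQ.card + 1) = SB.card + SQ.card + 1 by omega, pow_succ, pow_succ]
            ring
          · rw [hcd, pow_succ _ (SQ.card + 1)]
            ring
  intro κ hκ
  obtain ⟨κ', hκ', H1⟩ := claim (K + 1) κ hκ
  obtain ⟨κ₀, hκ₀, H0⟩ := sta0 h hc hΛ hκ'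
  refine ⟨min κ₀ κ', lt_min hκ₀ hκ', ?_⟩
  intro u r hS hCr z hz horb n hfst
  obtain ⟨w, hw⟩ := H0 u r C ε A c₃ hε0 hε8 hS (hCr.trans_le (min_le_left _ _)) hCA hc₃0 hc₃C z n hfst
  refine H1 u r hS (hCr.trans_le (min_le_right _ _)) z hz horb n hfst n 0 w ∅ ∅ ?_ ?_ ?_ (mn_sta hw le_rfl ?_ ?_)
  · intro k hk
    exact absurd hk (Finset.notMem_empty k)
  · intro k hk
    exact absurd hk (Finset.notMem_empty k)
  · simp
  · simp [hL₀]
  · simp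

end Pool.Agent.H47.LG
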