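import Pool.Agent.H47.LG.Mnp
import Pool.Agent.H47.LG.Smw

/-!
# Module Omc (LW): ACCUMULATION, THE FIRST ENTRANCE, THE DATA AT SMALL SCALES

`om_c`. PROOF. `P` is compact; the orbit of `z` (in the compact set `J`) tends to `P`. `Ω` = the set of the cluster points of the orbit: nonempty, closed, contained in `P` (`J` compact), `f Ω ⊆ Ω` (`f` continuous on `J`). Take `y ∈ Ω`: the orbit of `y` is in `Ω`, `Ω` closed: `P ⊆ closure (orbit of y) ⊆ Ω` (`mn`).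
`fst_ex`. PROOF. `u = 1` near `f c` (`UM.lc`, `f c ∈ P`), `f` is continuous at `c`, `E` is a neighbourhood of `c` (`ch_nhd`): `ε > 0` such that `‖x - c‖ < ε` implies `x ∈ E`, `u (f x) = 1`. `om_c` gives `n` with `‖f^[n] z - c‖ < ε`; the first `n` (`Nat.find`).
`sc_ex`. PROOF. `smooth` with `ε`: `C`; `κ₁` from `Lm.lo` for `ε`; for `κ`: `smooth` with `min κ (κ₁ / 2)`: `u`, `r`. `lo`: `w x = 1`, `{0 < w} ⊆ {0 < u} ⊆ ball v (C r)`: `‖y - x‖ < 2 C r < κ₁`.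
-/

set_option autoImplicit false

open Filter Topology Metric Set MeasureTheory

namespace Pool.Agent.H47.LG

open Pool.Agent.H81.RW

open Pool.Agent.H56.TH

variable {f : ℂ → ℂ} {N J P Cr : Set ℂ} {η : ℂ → ℂ → ℂ} {r₀ δ : ℝ} {ρ : ℂ → ENNReal}

theorem om_c (h : WW f N J P Cr η r₀ δ ρ) {z : ℂ} (hz : z ∈ J)
    (hl : ∀ ε : ℝ, 0 < ε → ∃ n₀ : ℕ, ∀ n ≥ n₀, ∃ y ∈ P, ‖f^[n] z - y‖ < ε) {c : ℂ} (hc : c ∈ P) {ε : ℝ} (hε : 0 < ε) (n₀ : ℕ) :
    ∃ n ≥ n₀, ‖f^[n] z - c‖ < ε := by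
  have hJ : ∀ n : ℕ, f^[n] z ∈ J := by
    intro n
    induction n with
    | zero => exact hz
    | succ n ih =>
      rw [Function.iterate_succ_apply']
      exact h.Jf _ ih
  obtain ⟨y, -, hy⟩ : ∃ y ∈ J, MapClusterPt y atTop (fun n => f^[n] z) :=
    h.Jc.exists_mapClusterPt (tendsto_principal.2 (Eventually.of_forall hJ))
  -- the cluster points are in `P`
  have hP : ∀ x : ℂ, MapClusterPt x atTop (fun n => f^[n] z) → x ∈ P := by
    intro x hx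
    rw [← h.Pc.isClosed.closure_eq, Metric.mem_closure_iff]
    intro e he
    obtain ⟨n₁, hn₁⟩ := hl (e / 2) (half_pos he)
    obtain ⟨n, hn, hn2⟩ := ((mapClusterPt_iff_frequently.1 hx _ (ball_mem_nhds x (half_pos he))).and_eventually
      (eventually_ge_atTop n₁)).exists
    obtain ⟨y, hy, hy2⟩ := hn₁ n hn2
    refine ⟨y, hy, ?_⟩
    have h1 : dist (f^[n] z) x < e / 2 := hn
    rw [← dist_eq_norm] at hy2
    have h2 := dist_triangle_left x y (f^[n] z)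
    linarith
  -- the set of the cluster points is invariant
  have hf : ∀ x : ℂ, MapClusterPt x atTop (fun n => f^[n] z) → MapClusterPt (f x) atTop (fun n => f^[n] z) := by
    intro x hx
    have h1 : ContinuousAt f x := (h.fd.differentiableAt (h.No.mem_nhds (h.PN (hP x hx)))).continuousAt
    have h2 : MapClusterPt (f x) atTop (f ∘ fun n => f^[n] z) := hx.continuousAt_comp h1
    have h3 : (f ∘ fun n => f^[n] z) = (fun n => f^[n] z) ∘ fun n : ℕ => n + 1 := by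
      funext n
      simp only [Function.comp_apply, Function.iterate_succ_apply']
    rw [h3] at h2
    exact h2.of_comp (tendsto_add_atTop_nat 1)
  have hfj : ∀ j : ℕ, MapClusterPt (f^[j] y) atTop (fun n => f^[n] z) := by
    intro j
    induction j with
    | zero => exact hy
    | succ j ih =>
      rw [Function.iterate_succ_apply']
      exact hf _ ih
  have hcl : closure {x | ∃ n : ℕ, f^[n] y = x} ⊆ {x | ClusterPt x (map (fun n => f^[n] z) atTop)} := by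
    refine closure_minimal ?_ isClosed_setOfPred_clusterPt
    rintro _ ⟨n, rfl⟩
    exact hfj n
  have hcc : MapClusterPt c atTop (fun n => f^[n] z) := hcl (h.mn y (hP y hy) hc)
  obtain ⟨n, hn, hn2⟩ := ((mapClusterPt_iff_frequently.1 hcc _ (ball_mem_nhds c hε)).and_eventually
    (eventually_ge_atTop n₀)).exists
  refine ⟨n, hn2, ?_⟩
  rw [← dist_eq_norm]
  exact hn

theorem fst_ex (h : WW f N J P Cr η r₀ δ ρ) {z : ℂ} (hz : z ∈ J)
    (hl : ∀ ε : ℝ, 0 < ε → ∃ n₀ : ℕ, ∀ n ≥ n₀, ∃ y ∈ P, ‖f^[n] z - y‖ < ε) {c : ℂ} (hc : c ∈ Cr) {u : ℂ → ℝ} (hu : UM P u)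
    (huc : u (f c) = 1) : ∃ n, Fst f (η c '' ball 0 r₀) u z n := by
  have hcP : c ∈ P := h.CP hc
  have h1 : ContinuousAt f c := (h.fd.differentiableAt (h.No.mem_nhds (h.PN hcP))).continuousAt
  have h2 : ∀ᶠ x in 𝓝 c, u (f x) = 1 := by
    have h3 := h1.eventually (hu.lc (f c) (h.Pf c hcP))
    filter_upwards [h3] with x hx
    rw [hx, huc]
  obtain ⟨e1, he1, he1s⟩ := Metric.eventually_nhds_iff_ball.1 h2
  obtain ⟨e2, he2, he2s⟩ := ch_nhd h
  obtain ⟨n, -, hn⟩ := om_c h hz hl hcP (lt_min he1 he2) 0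
  rw [← dist_eq_norm, ← mem_ball] at hn
  have hex : ∃ n, f^[n] z ∈ η c '' ball 0 r₀ ∧ 1 / 2 < u (f^[n + 1] z) := by
    refine ⟨n, he2s c hc (ball_subset_ball (min_le_right _ _) hn), ?_⟩
    rw [Function.iterate_succ_apply', he1s _ (ball_subset_ball (min_le_left _ _) hn)]
    norm_num
  classical
  exact ⟨Nat.find hex, Nat.find_spec hex, fun t ht => Nat.find_min hex ht⟩

theorem sc_ex (h : WW f N J P Cr η r₀ δ ρ) {M r₁ : ℝ} (hr : RG P M r₁) {v : ℂ} (hvP : v ∈ P) {Λ : ℝ} (hΛ : Lm P ρ v Λ)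
    {ε : ℝ} (hε : 0 < ε) : ∃ C : ℝ, 1 ≤ C ∧ ∀ κ : ℝ, 0 < κ → ∃ (u : ℂ → ℝ) (r : ℝ), Sc P ρ v u r C Λ ε ∧ C * r < κ := by
  obtain ⟨C, hC, hsm⟩ := smooth h hr hvP hΛ hε
  obtain ⟨κ₁, hκ₁, hlo⟩ := hΛ.lo ε hε
  refine ⟨C, hC, fun κ hκ => ?_⟩
  obtain ⟨u, r, hr0, hCr, hum, huv, hlip, hsp, hcr, hle⟩ := hsm (min κ (κ₁ / 2)) (lt_min hκ (half_pos hκ₁))
  refine ⟨u, r, ⟨hr0, hC, hvP, hum, huv, hlip, hsp, hcr, hle, ?_⟩, hCr.trans_le (min_le_left _ _)⟩
  intro x hx w hw hwx hwu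
  refine hlo x hx w hw hwx fun y hy => ?_
  have h1 := hsp y (hwu y hy)
  have h2 := hsp x (hwu x (by rw [hwx]; exact one_pos))
  have h3 : C * r < κ₁ / 2 := hCr.trans_le (min_le_right _ _)
  calc ‖y - x‖ = ‖(y - v) - (x - v)‖ := by congr 1; ring
    _ ≤ ‖y - v‖ + ‖x - v‖ := norm_sub_le _ _
    _ < κ₁ := by linarith

end Pool.Agent.H47.LG
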