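import Pool.Agent.H47.LG.Pbk

/-!
# Module Pbs (LW): the univalent pull back, nested version

`pbs`: as `pbk` (Pbk.lean), but with all the domains `W k` at once, `f` maps `W (k + 1)` into `W k`, up to the first critical time `K` or to time `0`. PROOF. As `pbk`: `κ'` the same; by induction on `T`-many steps: for every `K ≤ T` either there are nested `PL`s up to `K`, or for some `K' < K` nested `PL`s up to `K'` and a critical value in `W K'` (`pls`; extend the sequences `b`, `W` by `Function.update`).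
-/

set_option autoImplicit false

open Filter Topology Metric Set MeasureTheory

namespace Pool.Agent.H47.LG

open Pool.Agent.H81.RW

open Pool.Agent.H56.TH

variable {f : ℂ → ℂ} {N J P Cr : Set ℂ} {η : ℂ → ℂ → ℂ} {r₀ δ : ℝ} {ρ : ℂ → ENNReal}

theorem pbs0 (h : WW f N J P Cr η r₀ δ ρ) {κ M : ℝ} (hκ : 0 < κ) (hκδ : κ ≤ δ) (hM : 0 ≤ M)
    (huc : ∀ z ∈ J, ∀ W : Set ℂ, IsPreconnected W → W ⊆ N → z ∈ W → (∀ y ∈ W, f y ∈ ball (f z) κ) → W ⊆ ball z 1) :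
    ∃ κ' : ℝ, 0 < κ' ∧ ∀ (w : ℂ → ℝ) (y₀ : ℂ), UM P w → (∀ y, 0 < w y → ‖y - y₀‖ < κ') → ∀ a : ℝ, 0 < a → a ≤ 1 →
      (∀ a' : ℝ, 0 ≤ a' → a' < a → ell' ρ w a' a ≤ ENNReal.ofReal (M * (a - a'))) →
      ∀ p₀ ∈ P, w p₀ = 1 → ∀ (T : ℕ) (x : ℂ), x ∈ J → (∀ j < T, f^[j] x ∈ N ∧ infDist (f^[j] x) P < δ) →
      a ≤ w (f^[T] x) → ∃ (K : ℕ) (b : ℕ → ℝ) (W : ℕ → Set ℂ), K ≤ T ∧ (∀ k ≤ K, PL f N w a κ (f^[T - k] x) k (b k) (W k)) ∧
        (∀ k < K, ∀ y ∈ W (k + 1), f y ∈ W k) ∧ (K < T → ∃ c ∈ Cr, f c ∈ W K ∧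
          f^[T - K - 1] x ∈ η c '' ball 0 r₀ ∧ ball (f^[T - K] x) δ ⊆ ball (f c) (r₀ ^ 2 / 4)) := by
  have he : 0 < Real.exp (4 * M) := Real.exp_pos _
  obtain ⟨t, ht⟩ : ∃ t, t = κ / (4 * Real.exp (4 * M)) := ⟨_, rfl⟩
  have ht0 : 0 < t := by
    rw [ht]
    positivity
  have htκ : 2 * Real.exp (4 * M) * t < κ := by
    have h1 : 2 * Real.exp (4 * M) * t = κ / 2 := by
      rw [ht]
      field_simp
      norm_num
    rw [h1]
    linarith
  obtain ⟨ε, hε, hsh⟩ := h.ns t ht0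
  refine ⟨min ε (κ / 2), lt_min hε (by linarith), ?_⟩
  intro w y₀ hw hsm a ha ha1 hg p₀ hp hp1 T x hx hN hxa
  have hsm2 : ∀ y z, 0 < w y → 0 < w z → ‖y - z‖ < κ := by
    intro y z hy hz
    have h1 := (hsm y hy).trans_le (min_le_right _ _)
    have h2 := (hsm z hz).trans_le (min_le_right _ _)
    have h3 : ‖y - z‖ ≤ ‖y - y₀‖ + ‖z - y₀‖ := by
      have h4 : y - z = (y - y₀) - (z - y₀) := by ring
      rw [h4]
      exact norm_sub_le _ _
    linarith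
  have hn : ∀ y, 0 < w y → infDist y P < δ := by
    intro y hy
    have h1 := infDist_le_dist_of_mem (x := y) hp
    rw [dist_eq_norm] at h1
    exact h1.trans_lt ((hsm2 y p₀ hy (by rw [hp1]; norm_num)).trans_le hκδ)
  have hsh' : ∀ (q : ℂ) (k : ℕ), (q ∈ J ∨ ((∃ x ∈ J, q ∈ ball x 1) ∧ (∀ j < k, f^[j] q ∈ N) ∧ f^[k] q ∈ P)) →
      ∃ y ∈ ball q t, (∀ j < k, f^[j] y ∈ N) ∧ ¬ 0 < w (f^[k] y) := by
    intro q k hq
    obtain ⟨y, hy1, hy2, hy3⟩ := hsh q k y₀ hq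
    refine ⟨y, hy1, hy2, fun h5 => hy3 ?_⟩
    rw [mem_ball, dist_eq_norm]
    exact (hsm _ h5).trans_le (min_le_left _ _)
  have key : ∀ m ≤ T, (∃ (b : ℕ → ℝ) (W : ℕ → Set ℂ), (∀ k ≤ m, PL f N w a κ (f^[T - k] x) k (b k) (W k)) ∧
      ∀ k < m, ∀ y ∈ W (k + 1), f y ∈ W k) ∨ ∃ K < m, ∃ (b : ℕ → ℝ) (W : ℕ → Set ℂ),
      (∀ k ≤ K, PL f N w a κ (f^[T - k] x) k (b k) (W k)) ∧ (∀ k < K, ∀ y ∈ W (k + 1), f y ∈ W k) ∧
      ∃ c ∈ Cr, f c ∈ W K ∧ f^[T - K - 1] x ∈ η c '' ball 0 r₀ ∧ ball (f^[T - K] x) δ ⊆ ball (f c) (r₀ ^ 2 / 4) := by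
    intro m
    induction m with
    | zero =>
      intro _
      refine Or.inl ⟨fun _ => 0, fun _ => {y | 0 < w y}, fun k hk => ?_, fun k hk => absurd hk (Nat.not_lt_zero k)⟩
      obtain rfl : k = 0 := Nat.le_zero.1 hk
      rw [Nat.sub_zero]
      exact pl_zero hw ha hxa fun y hy => hsm2 y _ hy (ha.trans_le hxa)
    | succ m ih =>
      intro hm
      rcases ih (by omega) with ⟨b, W, hP, hnest⟩ | ⟨K, hK, hr⟩
      · have e1 : T - m = T - (m + 1) + 1 := by omega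
        have hP' : PL f N w a κ (f (f^[T - (m + 1)] x)) m (b m) (W m) := by
          have e2 : f (f^[T - (m + 1)] x) = f^[T - m] x := by
            rw [e1, Function.iterate_succ_apply']
          rw [e2]
          exact hP m le_rfl
        rcases pls h hw ha1 hM hκδ hg hp hp1 hn ht0 htκ hsh' huc hP' (hN _ (by omega)).1 (it_J h _ hx) (hN _ (by omega)).2 with
          ⟨b', W', h1, h2⟩ | ⟨c, hc, h1, h2, h3⟩
        · refine Or.inl ⟨Function.update b (m + 1) b', Function.update W (m + 1) W', ?_, ?_⟩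
          · intro k hk
            rcases Nat.lt_or_ge k (m + 1) with hlt | hge
            · rw [Function.update_of_ne (by omega), Function.update_of_ne (by omega)]
              exact hP k (by omega)
            · obtain rfl : k = m + 1 := by omega
              rw [Function.update_self, Function.update_self]
              exact h1
          · intro k hk y hy
            rcases Nat.lt_or_ge k m with hlt | hge
            · rw [Function.update_of_ne (by omega)] at hy ⊢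
              exact hnest k hlt y hy
            · obtain rfl : k = m := by omega
              rw [Function.update_self] at hy
              rw [Function.update_of_ne (by omega)]
              exact h2 y hy
        · refine Or.inr ⟨m, by omega, b, W, hP, hnest, c, hc, h1, ?_, ?_⟩
          · rw [Nat.sub_sub]
            exact h2
          · rw [e1, Function.iterate_succ_apply']
            exact h3
      · exact Or.inr ⟨K, by omega, hr⟩
  rcases key T le_rfl with ⟨b, W, h1, h2⟩ | ⟨K, hK, b, W, h1, h2, h3⟩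
  · exact ⟨T, b, W, le_rfl, h1, h2, fun hlt => absurd hlt (lt_irrefl T)⟩
  · exact ⟨K, b, W, hK.le, h1, h2, fun _ => h3⟩

theorem pbs (h : WW f N J P Cr η r₀ δ ρ) {κ M : ℝ} (hκ : 0 < κ) (hκδ : κ ≤ δ) (hM : 0 ≤ M) :
    ∃ κ' : ℝ, 0 < κ' ∧ ∀ (w : ℂ → ℝ) (y₀ : ℂ), UM P w → (∀ y, 0 < w y → ‖y - y₀‖ < κ') → ∀ a : ℝ, 0 < a → a ≤ 1 →
      (∀ a' : ℝ, 0 ≤ a' → a' < a → ell' ρ w a' a ≤ ENNReal.ofReal (M * (a - a'))) →
      ∀ p₀ ∈ P, w p₀ = 1 → ∀ (T : ℕ) (x : ℂ), x ∈ J → (∀ j < T, f^[j] x ∈ N ∧ infDist (f^[j] x) P < δ) →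
      a ≤ w (f^[T] x) → ∃ (K : ℕ) (b : ℕ → ℝ) (W : ℕ → Set ℂ), K ≤ T ∧ (∀ k ≤ K, PL f N w a κ (f^[T - k] x) k (b k) (W k)) ∧
        (∀ k < K, ∀ y ∈ W (k + 1), f y ∈ W k) ∧ (K < T → ∃ c ∈ Cr, f c ∈ W K ∧
          f^[T - K - 1] x ∈ η c '' ball 0 r₀ ∧ ball (f^[T - K] x) δ ⊆ ball (f c) (r₀ ^ 2 / 4)) := by
  obtain ⟨κ₁, h0, h1, huc⟩ := uc_min h hκ
  obtain ⟨κ', hκ', hmain⟩ := pbs0 h h0 (h1.trans hκδ) hM huc
  refine ⟨κ', hκ', ?_⟩
  intro w y₀ hw hsm a ha ha1 hg p₀ hp hp1 T x hx hN hxa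
  obtain ⟨K, b, W, h2, h3, h4⟩ := hmain w y₀ hw hsm a ha ha1 hg p₀ hp hp1 T x hx hN hxa
  exact ⟨K, b, W, h2, fun k hk => pl_mono (h3 k hk) h1, h4⟩

end Pool.Agent.H47.LG
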