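import Pool.Agent.H47.LG.Tc
import Pool.Agent.H81.RW.Pull

/-!
# Module Sz: the size of a univalent pull back

Let `F = f^[k]`, `V = W ∩ F ⁻¹' {b' < w}` (full: `Bh.fu` and `ul_fu`), `q ∈ V`, `y ∉ V`, so `r = ‖y - q‖ > 0`; let `r < R = ‖x - q‖` (otherwise nothing to prove). `b'' = (b + b') / 2`, `G = pb F W (trc b'' a w)`; `tsupport (trc b'' a w) ⊆ {b'' ≤ w} ⊆ {b < w}`, so `G` is Lipschitz (`pb_lip`, `ul_trc`).
For `r < s < R`: `circ_full` (`V`, `y`): a point `x₁` of the circle not in `V`: `G x₁ ≤ τ' = (b' - b'') / (a - b'')` (`x₁ ∉ W`: `G = 0`; otherwise `w (F x₁) ≤ b'`). For `b' < t < a`: `W ∩ F ⁻¹' {t < w}` is preconnected (`bh_pre`), contains `q`, `x`: a point `x₂` of the circle with `G x₂ ≥ τ = (t - b'') / (a - b'')`.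
Weight `ρ' x' = if x' ∈ W then ρ (F x') * ofReal ‖deriv F x'‖ else ⊤`: `ρ' x' ≥ ofReal ((1 / 4) / ‖x' - q‖)` by `WW.lb` (`bh_der`). `thk`: `ofReal ((τ - τ') (1 / 4) log (R / r)) ≤ ell' ρ' G τ' τ`, and `ell' ρ' G τ' τ ≤ ∫⁻ over W ∩ F ⁻¹' {b' < w < a}` of `ρ' ‖fderiv G‖` (`τ' < G x' < τ` implies `x' ∈ W`, `b' < w (F x') < a`)
`≤ ∫⁻ over {b' < w < a}` of `ρ ‖fderiv (trc b'' a w)‖` (`pb_cov`) `≤ ofReal (a - b'')⁻¹ * ell' ρ w b' a` (`trc_fd`) `≤ ofReal ((a - b'')⁻¹ M (a - b'))`. Let `t → a`: `(a - b') / (a - b'') (1 / 4) log (R / r) ≤ M (a - b') / (a - b'')`.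
`sl`: `b₁ = (a + b) / 2`, `K = W ∩ F ⁻¹' {b₁ ≤ w}` is compact (`bh_cpt`; `{b₁ ≤ w}` is compact: closed, in the support). The function `w ∘ F` has a maximum `m` on `K ∩ {κ ≤ ‖y - x‖}`, and `m < a` by `hE`; take `b' = max b₁ m`.
-/

set_option autoImplicit false

open Filter Topology Metric Set MeasureTheory

namespace Pool.Agent.H47.LG

open Pool.Agent.H81.RW

open Pool.Agent.H56.TH

variable {f : ℂ → ℂ} {N J P Cr : Set ℂ} {η : ℂ → ℂ → ℂ} {r₀ δ : ℝ} {ρ : ℂ → ENNReal}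

private theorem sz_trc_le {w : ℂ → ℝ} {c a b' : ℝ} (hc : c < b') (hca : b' < a) {x : ℂ} (h : w x ≤ b') :
    trc c a w x ≤ (b' - c) / (a - c) := by
  have h1 : 0 < a - c := by linarith
  unfold trc
  refine max_le (div_nonneg (by linarith) h1.le) ((min_le_right _ _).trans ?_)
  exact div_le_div_of_nonneg_right (by linarith) h1.le

private theorem sz_le_trc {w : ℂ → ℝ} {c a t : ℝ} (hc : c < t) (hta : t < a) {x : ℂ} (h : t < w x) :
    (t - c) / (a - c) ≤ trc c a w x := by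
  have h1 : 0 < a - c := by linarith
  unfold trc
  refine le_max_of_le_right (le_min ?_ ?_)
  · rw [div_le_one h1]
    linarith
  · exact div_le_div_of_nonneg_right (by linarith) h1.le

private theorem sz_supp {w : ℂ → ℝ} (hw : Continuous w) {b c a : ℝ} (hb : b < c) (hca : c < a) :
    tsupport (trc c a w) ⊆ {y | b < w y} := by
  have h1 : IsClosed {y | c ≤ w y} := isClosed_le continuous_const hw
  have h2 : tsupport (trc c a w) ⊆ {y | c ≤ w y} := by
    refine closure_minimal (fun y hy => ?_) h1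
    by_contra h3
    exact hy (trc_zero hca (not_le.1 h3).le)
  exact h2.trans fun y hy => lt_of_lt_of_le hb hy

private theorem sz_up {F : ℂ → ℂ} {W D : Set ℂ} {w : ℂ → ℝ} (hw : Continuous w) (h : Bh F W D) {c b' a t : ℝ} (hc : c < b')
    (hbt : b' < t) (hta : t < a) {ρ' : ℂ → ENNReal} (hρ' : ∀ y ∈ W, ρ' y = ρ (F y) * ENNReal.ofReal ‖deriv F y‖) :
    ell' ρ' (pb F W (trc c a w)) ((b' - c) / (a - c)) ((t - c) / (a - c)) ≤ ENNReal.ofReal (a - c)⁻¹ * ell' ρ w b' a := by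
  have hac : 0 < a - c := by linarith
  have hca : c < a := by linarith
  have hT : MeasurableSet {x : ℂ | b' < w x ∧ w x < a} :=
    ((isOpen_lt continuous_const hw).inter (isOpen_lt hw continuous_const)).measurableSet
  have hsub : {x | (b' - c) / (a - c) < pb F W (trc c a w) x ∧ pb F W (trc c a w) x < (t - c) / (a - c)} ⊆
      W ∩ F ⁻¹' {x : ℂ | b' < w x ∧ w x < a} := by
    rintro x ⟨h1, h2⟩
    have hpos : 0 < pb F W (trc c a w) x := lt_of_le_of_lt (div_nonneg (by linarith) hac.le) h1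
    have hxW : x ∈ W := by
      by_contra h3
      rw [pb_off h3] at hpos
      exact lt_irrefl _ hpos
    rw [pb_on hxW] at h1 h2
    refine ⟨hxW, ?_, ?_⟩
    · by_contra h3
      exact absurd (sz_trc_le hc (hbt.trans hta) (not_lt.1 h3)) (not_le.2 h1)
    · by_contra h3
      rw [trc_one hca (not_lt.1 h3)] at h2
      have h4 : (t - c) / (a - c) ≤ 1 := by
        rw [div_le_one hac]
        linarith
      linarith
  calc ell' ρ' (pb F W (trc c a w)) ((b' - c) / (a - c)) ((t - c) / (a - c))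
      ≤ ∫⁻ x in W ∩ F ⁻¹' {x : ℂ | b' < w x ∧ w x < a}, ρ' x * ENNReal.ofReal ‖fderiv ℝ (pb F W (trc c a w)) x‖ :=
        lintegral_mono_set hsub
    _ = ∫⁻ x in W ∩ F ⁻¹' {x : ℂ | b' < w x ∧ w x < a},
          ρ (F x) * ENNReal.ofReal ‖deriv F x‖ * ENNReal.ofReal ‖fderiv ℝ (pb F W (trc c a w)) x‖ := by
        have hm : MeasurableSet (W ∩ F ⁻¹' {x : ℂ | b' < w x ∧ w x < a}) := by
          have h3 : IsOpen (W ∩ F ⁻¹' {x : ℂ | b' < w x ∧ w x < a}) :=
            h.fd.continuousOn.isOpen_inter_preimage h.Wo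
              ((isOpen_lt continuous_const hw).inter (isOpen_lt hw continuous_const))
          exact h3.measurableSet
        refine setLIntegral_congr_fun hm fun x hx => ?_
        beta_reduce
        rw [hρ' x hx.1]
    _ ≤ ∫⁻ x in {x : ℂ | b' < w x ∧ w x < a} ∩ D, ρ x * ENNReal.ofReal ‖fderiv ℝ (trc c a w) x‖ := pb_cov h hT
    _ ≤ ∫⁻ x in {x : ℂ | b' < w x ∧ w x < a}, ρ x * ENNReal.ofReal ‖fderiv ℝ (trc c a w) x‖ :=
        lintegral_mono_set inter_subset_left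
    _ ≤ ∫⁻ x in {x : ℂ | b' < w x ∧ w x < a}, ENNReal.ofReal (a - c)⁻¹ * (ρ x * ENNReal.ofReal ‖fderiv ℝ w x‖) := by
        refine lintegral_mono fun x => ?_
        beta_reduce
        rw [mul_left_comm]
        refine mul_le_mul_right ?_ _
        rw [← ENNReal.ofReal_mul (inv_nonneg.2 hac.le)]
        exact ENNReal.ofReal_le_ofReal (trc_fd hw hca x).1
    _ = ENNReal.ofReal (a - c)⁻¹ * ell' ρ w b' a := lintegral_const_mul' _ _ ENNReal.ofReal_ne_top

theorem sz (h : WW f N J P Cr η r₀ δ ρ) {w : ℂ → ℝ} (hw : UL P w) {k : ℕ} {W : Set ℂ} {b a b' M : ℝ} (hb : 0 ≤ b)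
    (hbb : b < b') (hba : b' < a) (hM : 0 ≤ M) (hB : Bh (f^[k]) W {y | b < w y})
    (hN : ∀ y ∈ W, ∀ j < k, f^[j] y ∈ N) (hn : ∀ y, b < w y → infDist y P < δ)
    (hl : ell' ρ w b' a ≤ ENNReal.ofReal (M * (a - b'))) {q x y : ℂ} (hq : q ∈ W) (hqP : f^[k] q ∈ P)
    (hqa : a ≤ w (f^[k] q)) (hx : x ∈ W) (hxa : a ≤ w (f^[k] x)) (hy : y ∉ W ∩ f^[k] ⁻¹' {u | b' < w u}) :
    ‖x - q‖ ≤ Real.exp (4 * M) * ‖y - q‖ := by
  classical
  have hwc := ul_cont hw
  by_cases hRr : ‖x - q‖ ≤ ‖y - q‖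
  · have h1 : 1 ≤ Real.exp (4 * M) := Real.one_le_exp (by linarith)
    exact hRr.trans (le_mul_of_one_le_left (norm_nonneg _) h1)
  rw [not_le] at hRr
  have hr : 0 < ‖y - q‖ := by
    rw [norm_pos_iff, sub_ne_zero]
    rintro rfl
    exact hy ⟨hq, lt_of_lt_of_le hba hqa⟩
  obtain ⟨c, hcdef⟩ : ∃ c, c = (b + b') / 2 := ⟨_, rfl⟩
  have hbc : b < c := by rw [hcdef]; linarith
  have hcb : c < b' := by rw [hcdef]; linarith
  have hac : 0 < a - c := by linarith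
  have hca : c < a := by linarith
  have hcn : 0 ≤ c := hb.trans hbc.le
  have hul : UL P (trc c a w) := ul_trc hw hcn hca
  obtain ⟨K, hK⟩ := hul.lip
  have hsup : tsupport (trc c a w) ⊆ {y | b < w y} := sz_supp hwc hbc hca
  obtain ⟨K', hK'⟩ := pb_lip hB hul.cs hsup hK
  -- the weight
  obtain ⟨ρ', hρ'def⟩ : ∃ ρ' : ℂ → ENNReal, ρ' = fun x' => if x' ∈ W then ρ (f^[k] x') * ENNReal.ofReal ‖deriv (f^[k]) x'‖ else ⊤ :=
    ⟨_, rfl⟩
  have hρ'on : ∀ y ∈ W, ρ' y = ρ (f^[k] y) * ENNReal.ofReal ‖deriv (f^[k]) y‖ := by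
    intro y hy
    rw [hρ'def]
    simp only [hy, if_true]
  have hρ'off : ∀ y, y ∉ W → ρ' y = ⊤ := by
    intro y hy
    rw [hρ'def]
    simp only [hy, if_false]
  have hlow : ∀ x', ‖y - q‖ < ‖x' - q‖ → ‖x' - q‖ < ‖x - q‖ → ENNReal.ofReal ((1 / 4) / ‖x' - q‖) ≤ ρ' x' := by
    intro x' h1 h2
    by_cases hW : x' ∈ W
    · rw [hρ'on x' hW]
      have h3 : b < w (f^[k] x') := by
        have h4 : f^[k] x' ∈ f^[k] '' W := mem_image_of_mem _ hW
        rw [hB.img] at h4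
        exact h4
      have h5 := h.lb k x' q (hN x' hW) (hN q hq) hqP (hn _ h3) (bh_der hB hW)
      have h6 : (1 / 4 : ℝ) / ‖x' - q‖ = 1 / (4 * ‖x' - q‖) := by
        rw [div_div]
      rw [h6]
      exact h5
    · rw [hρ'off x' hW]
      exact le_top
  have hVfull : Full (W ∩ f^[k] ⁻¹' {u | b' < w u}) :=
    hB.fu _ (fun u hu => lt_trans hbb hu) (ul_fu hw (hb.trans hbb.le))
  -- the inequality at the level t
  have key : ∀ t, b' < t → t < a → (t - b') * ((1 / 4) * Real.log (‖x - q‖ / ‖y - q‖)) ≤ M * (a - b') := by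
    intro t h1 h2
    have hct : c < t := hcb.trans h1
    have hττ : (b' - c) / (a - c) < (t - c) / (a - c) := by
      rw [div_lt_div_iff_of_pos_right hac]
      linarith
    have h3 := thk (ρ := ρ') (z := q) (r := ‖y - q‖) (R := ‖x - q‖) (c₀ := 1 / 4) hK' hr hRr (by norm_num) hττ hlow (by
      intro s hs1 hs2
      constructor
      · obtain ⟨x₁, hx₁, hxV⟩ := circ_full hVfull hy hs1
        refine ⟨x₁, hx₁, ?_⟩
        by_cases hW : x₁ ∈ W
        · rw [pb_on hW]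
          refine sz_trc_le hcb hba ?_
          by_contra h4
          exact hxV ⟨hW, not_le.1 h4⟩
        · rw [pb_off hW]
          exact div_nonneg (by linarith) hac.le
      · have hE : IsPreconnected (W ∩ f^[k] ⁻¹' {u | t < w u}) :=
          bh_pre hB (fun u hu => lt_trans (hbb.trans h1) hu) (ul_co hw (by linarith))
        have hqE : q ∈ W ∩ f^[k] ⁻¹' {u | t < w u} := ⟨hq, lt_of_lt_of_le h2 hqa⟩
        have hxE : x ∈ W ∩ f^[k] ⁻¹' {u | t < w u} := ⟨hx, lt_of_lt_of_le h2 hxa⟩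
        obtain ⟨x₂, hx₂, hxs⟩ := circ_pre hE (z := q) (s := s) hqE (by
          rw [sub_self, norm_zero]
          exact hr.le.trans hs1.le) hxE hs2.le
        refine ⟨x₂, hxs, ?_⟩
        rw [pb_on hx₂.1]
        exact sz_le_trc hct h2 hx₂.2)
    have h4 := h3.trans ((sz_up hwc hB hcb h1 h2 hρ'on).trans (mul_le_mul_right hl _))
    rw [← ENNReal.ofReal_mul (inv_nonneg.2 hac.le)] at h4
    have h5 : 0 ≤ (a - c)⁻¹ * (M * (a - b')) := by
      have : 0 ≤ a - b' := by linarith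
      positivity
    have h6 := (ENNReal.ofReal_le_ofReal_iff h5).1 h4
    have h7 : (t - c) / (a - c) - (b' - c) / (a - c) = (a - c)⁻¹ * (t - b') := by
      field_simp
      ring
    rw [h7, mul_assoc] at h6
    exact le_of_mul_le_mul_left h6 (inv_pos.2 hac)
  -- the limit
  have hlog : Real.log (‖x - q‖ / ‖y - q‖) ≤ 4 * M := by
    by_contra hcon
    rw [not_le] at hcon
    obtain ⟨L, hL⟩ : ∃ L, L = (1 / 4) * Real.log (‖x - q‖ / ‖y - q‖) := ⟨_, rfl⟩
    have hML : M < L := by rw [hL]; linarith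
    have hL0 : 0 < L := lt_of_le_of_lt hM hML
    have hr1 : M / L < 1 := (div_lt_one hL0).2 hML
    have hr0 : 0 ≤ M / L := div_nonneg hM hL0.le
    have hab : 0 < a - b' := sub_pos.2 hba
    have h1 := key (b' + (a - b') * ((1 + M / L) / 2)) (by
      have : 0 < (a - b') * ((1 + M / L) / 2) := by positivity
      linarith) (by
      have : (a - b') * ((1 + M / L) / 2) < (a - b') * 1 := mul_lt_mul_of_pos_left (by linarith) hab
      linarith)
    rw [← hL] at h1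
    have h2 : (b' + (a - b') * ((1 + M / L) / 2) - b') * L = (a - b') * ((L + M) / 2) := by
      field_simp
      ring
    rw [h2] at h1
    have h3 : (a - b') * M < (a - b') * ((L + M) / 2) := mul_lt_mul_of_pos_left (by linarith) hab
    linarith
  have h1 : ‖x - q‖ / ‖y - q‖ ≤ Real.exp (4 * M) := by
    rw [← Real.log_le_iff_le_exp (div_pos (hr.trans hRr) hr)]
    exact hlog
  rwa [div_le_iff₀ hr] at h1

theorem sl {F : ℂ → ℂ} {W : Set ℂ} {w : ℂ → ℝ} {a b : ℝ} (hw : Continuous w) (hc : HasCompactSupport w) (hb : 0 ≤ b)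
    (hba : b < a) (hB : Bh F W {y | b < w y}) {x : ℂ} {κ : ℝ} (hE : ∀ y ∈ W, a ≤ w (F y) → ‖y - x‖ < κ) :
    ∃ b' : ℝ, b < b' ∧ b' < a ∧ ∀ y ∈ W, b' < w (F y) → ‖y - x‖ < κ := by
  obtain ⟨b₁, hb₁⟩ : ∃ b₁, b₁ = (a + b) / 2 := ⟨_, rfl⟩
  have h1 : b < b₁ := by rw [hb₁]; linarith
  have h2 : b₁ < a := by rw [hb₁]; linarith
  have hcpt : IsCompact {y | b₁ ≤ w y} := by
    refine hc.isCompact.of_isClosed_subset (isClosed_le continuous_const hw) fun y hy => ?_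
    refine subset_tsupport _ ?_
    have h3 : b₁ ≤ w y := hy
    intro h0
    rw [h0] at h3
    linarith
  have hKc : IsCompact (W ∩ F ⁻¹' {y | b₁ ≤ w y}) := bh_cpt hB (fun y hy => lt_of_lt_of_le h1 hy) hcpt
  have hK'c : IsCompact ((W ∩ F ⁻¹' {y | b₁ ≤ w y}) ∩ {y | κ ≤ ‖y - x‖}) :=
    hKc.inter_right (isClosed_le continuous_const (continuous_id.sub continuous_const).norm)
  by_cases hne : ((W ∩ F ⁻¹' {y | b₁ ≤ w y}) ∩ {y | κ ≤ ‖y - x‖}).Nonempty
  · have hcont : ContinuousOn (fun y => w (F y)) ((W ∩ F ⁻¹' {y | b₁ ≤ w y}) ∩ {y | κ ≤ ‖y - x‖}) :=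
      hw.comp_continuousOn (hB.fd.continuousOn.mono fun y hy => hy.1.1)
    obtain ⟨y₀, hy₀, hmax⟩ := hK'c.exists_isMaxOn hne hcont
    have h3 : w (F y₀) < a := by
      by_contra h4
      exact absurd (hE y₀ hy₀.1.1 (not_lt.1 h4)) (not_lt.2 hy₀.2)
    refine ⟨max b₁ (w (F y₀)), lt_max_of_lt_left h1, max_lt h2 h3, fun y hy hyb => ?_⟩
    by_contra h4
    have h5 : y ∈ (W ∩ F ⁻¹' {y | b₁ ≤ w y}) ∩ {y | κ ≤ ‖y - x‖} :=
      ⟨⟨hy, ((le_max_left _ _).trans_lt hyb).le⟩, not_lt.1 h4⟩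
    have h6 : w (F y) ≤ w (F y₀) := hmax h5
    exact absurd (h6.trans (le_max_right _ _)) (not_le.2 hyb)
  · refine ⟨b₁, h1, h2, fun y hy hyb => ?_⟩
    by_contra h4
    exact hne ⟨y, ⟨hy, hyb.le⟩, not_lt.1 h4⟩

end Pool.Agent.H47.LG
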