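import Pool.Agent.H81.RW.Df

/-!
# ROB (MP_8f2e1c), length calculus, all Julia sets: the setting

Copy of `H81/RW/Wd` with weaker hypotheses on `J` (in the case that the Julia set is the sphere `J` consists of points whose orbits tend to the
post-critical set): `ns`: images of discs at the points of `J`, and at the points near `J` with an image in `P`, are not small (instead of exactness and
backward invariance); `uc`: connected sets with small image are small.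

`WW`: an abstract setting: `f` holomorphic on the open set `N`, `J` compact, `P` a minimal set, `Cr` the critical points in `P` with
charts `η c` (`f (η c x) = f c + x ^ 2`), local inverses near the points of `J ∩ N` near `P`, inverse branches of the iterates over discs off `P`, the metric `ρ`.
It is obtained from the setting `PG` (H66/SP/Defs), a minimal piece (H66/DIM/If) and `rh` (H56/TH/MR).
`PL`: a univalent pull back: `f^[k]` maps `W` biholomorphically onto `{b < w}`, `b < a`, all images of `W` are small.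
`Lm P ρ v Λ`: `Λ` is the minimal length at the points of `P`, and it is attained at `v`.
-/

set_option autoImplicit false

open Filter Topology Metric Set MeasureTheory

namespace Pool.Agent.H47.LG

open Pool.Agent.H81.RW

open Pool.Agent.H56.TH

/-- the setting -/
structure WW (f : ℂ → ℂ) (N J P Cr : Set ℂ) (η : ℂ → ℂ → ℂ) (r₀ δ : ℝ) (ρ : ℂ → ENNReal) : Prop where
  No : IsOpen N
  fd : DifferentiableOn ℂ f N
  Jc : IsCompact J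
  Jf : ∀ z ∈ J, f z ∈ J
  ns : ∀ t : ℝ, 0 < t → ∃ ε : ℝ, 0 < ε ∧ ∀ (q : ℂ) (k : ℕ) (c : ℂ),
    (q ∈ J ∨ ((∃ x ∈ J, q ∈ ball x 1) ∧ (∀ j < k, f^[j] q ∈ N) ∧ f^[k] q ∈ P)) →
    ∃ y ∈ ball q t, (∀ j < k, f^[j] y ∈ N) ∧ f^[k] y ∉ ball c ε
  uc : ∃ κ₀ : ℝ, 0 < κ₀ ∧ ∀ z ∈ J, ∀ W : Set ℂ, IsPreconnected W → W ⊆ N → z ∈ W → (∀ y ∈ W, f y ∈ ball (f z) κ₀) → W ⊆ ball z 1
  Pc : IsCompact P
  PJ : P ⊆ J
  PN : P ⊆ N
  Pf : ∀ z ∈ P, f z ∈ P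
  mn : ∀ x ∈ P, P ⊆ closure {y | ∃ n : ℕ, f^[n] x = y}
  Cf : Cr.Finite
  Cn : Cr.Nonempty
  CP : Cr ⊆ P
  hδ : 0 < δ
  hr : 0 < r₀
  ηd : ∀ c ∈ Cr, DifferentiableOn ℂ (η c) (ball 0 r₀)
  ηi : ∀ c ∈ Cr, InjOn (η c) (ball 0 r₀)
  η0 : ∀ c ∈ Cr, η c 0 = c
  ηv : ∀ c ∈ Cr, ∀ x ∈ ball (0 : ℂ) r₀, η c x ∈ N ∧ f (η c x) = f c + x ^ 2
  loc : ∀ z ∈ N, z ∈ J → infDist z P < δ → (∃ g : ℂ → ℂ, DifferentiableOn ℂ g (ball (f z) δ) ∧ g (f z) = z ∧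
      ∀ u ∈ ball (f z) δ, g u ∈ N ∧ f (g u) = u) ∨
    ∃ c ∈ Cr, ball (f z) δ ⊆ ball (f c) (r₀ ^ 2 / 4) ∧ z ∈ η c '' ball 0 r₀
  br : ∀ (k : ℕ) (w z : ℂ) (r : ℝ), ball w r ⊆ thickening δ P → Disjoint (ball w r) P → (∀ j < k, f^[j] z ∈ N) →
    f^[k] z ∈ ball w r → ∃ G : ℂ → ℂ, DifferentiableOn ℂ G (ball w r) ∧ G (f^[k] z) = z ∧
      ∀ u ∈ ball w r, (∀ j < k, f^[j] (G u) ∈ N) ∧ f^[k] (G u) = u
  me : Measurable ρ
  lb : ∀ (k : ℕ) (x q : ℂ), (∀ j < k, f^[j] x ∈ N) → (∀ j < k, f^[j] q ∈ N) → f^[k] q ∈ P →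
    infDist (f^[k] x) P < δ → deriv (f^[k]) x ≠ 0 →
    ENNReal.ofReal (1 / (4 * ‖x - q‖)) ≤ ρ (f^[k] x) * ENNReal.ofReal ‖deriv (f^[k]) x‖
  ct : ∀ x ∈ N, f x ∈ thickening δ J → deriv f x ≠ 0 → ρ x ≤ ρ (f x) * ENNReal.ofReal ‖deriv f x‖
  up : ∀ (w : ℂ) (d : ℝ), 0 < d → ball w d ⊆ thickening δ P → Disjoint (ball w d) P → ρ w ≤ ENNReal.ofReal (16 / d)
  lg : ∃ K : ℝ, 1 ≤ K ∧ ∀ (x y : ℂ) (d : ℝ), 0 < d → ball x d ⊆ thickening δ P → Disjoint (ball x d) P →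
    ‖y - x‖ ≤ d / K → ρ y ≤ ENNReal.ofReal (1 + K * ‖y - x‖ / d) * ρ x

/-- a univalent pull back of the level sets of `w` (levels near `a`) to `x` -/
structure PL (f : ℂ → ℂ) (N : Set ℂ) (w : ℂ → ℝ) (a κ : ℝ) (x : ℂ) (k : ℕ) (b : ℝ) (W : Set ℂ) : Prop where
  b0 : 0 ≤ b
  ba : b < a
  bh : Bh (f^[k]) W {y | b < w y}
  xW : x ∈ W
  xa : a ≤ w (f^[k] x)
  Nn : ∀ y ∈ W, ∀ j < k, f^[j] y ∈ N
  sm : ∀ j ≤ k, ∀ y ∈ W, ‖f^[j] y - f^[j] x‖ < κ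

/-- the minimal length at the points of `P` is `Λ`, attained at `v` -/
structure Lm (P : Set ℂ) (ρ : ℂ → ENNReal) (v : ℂ) (Λ : ℝ) : Prop where
  nn : 0 ≤ Λ
  lo : ∀ ε : ℝ, 0 < ε → ∃ κ : ℝ, 0 < κ ∧ ∀ x ∈ P, ∀ w : ℂ → ℝ, UM P w → w x = 1 → (∀ y, 0 < w y → ‖y - x‖ < κ) →
    ENNReal.ofReal (Λ - ε) ≤ ell ρ w
  hi : ∀ ε κ : ℝ, 0 < ε → 0 < κ → ∃ w : ℂ → ℝ, UM P w ∧ w v = 1 ∧ (∀ y, 0 < w y → ‖y - v‖ < κ) ∧
    ell ρ w ≤ ENNReal.ofReal (Λ + ε)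

end Pool.Agent.H47.LG
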