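import Pool.Agent.H47.LG.Mnp
import Pool.Agent.H47.LG.Fa
import Pool.Agent.H47.LG.Sgm

/-!
# Module Wlk (LW): FROM THE OUTCOME OF THE CUT PROCESS TO A FRAME ON THE CIRCLE

`wk_ww`: `WW` gives `WK` (Wkc) with `T = thickening δ P`, `v = f c`, chart `η c`. `fr_mk`: a frame from a branch (`sheet`).
`fsm` (SMALLNESS): if `R ‖g' x‖ ≥ κ` then `ball z (κ / 32) ⊆ g '' ball x R` (`univ_cover`), contradiction to `ns`.
`wlk`. `R₀ = min (min c₃ (1 / (4 C))) 1`, `R = R₀ r`. `G₁` the access set of the outcome (`s` its level), `G₂` from `sgm` (for this `s`), `G = G₁ ∪ G₂`: preconnected, contained in `closedBall (f c) ((A + C) r)`, all points have distance `≥ R` from `P`.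
START FRAME. (1) `f^[m] z ∈ G₁`: `WK.br`, `fr_mk`. (2) `fa` with `A := A / R₀`, `D`. In both cases `fsm` with a small `κ₂`. `wkc` with `A := (A + C) / R₀`.
-/

set_option autoImplicit false

open Filter Topology Metric Set MeasureTheory

namespace Pool.Agent.H47.LG

open Pool.Agent.H81.RW

open Pool.Agent.H56.TH

variable {f : ℂ → ℂ} {N J P Cr : Set ℂ} {η : ℂ → ℂ → ℂ} {r₀ δ : ℝ} {ρ : ℂ → ENNReal}

theorem wk_ww (h : WW f N J P Cr η r₀ δ ρ) {c : ℂ} (hc : c ∈ Cr) : WK f N P (thickening δ P) (f c) (η c) r₀ where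
  No := h.No
  fd := h.fd
  vP := h.Pf _ (h.CP hc)
  hr := h.hr
  ηd := h.ηd c hc
  ηi := h.ηi c hc
  ηv := h.ηv c hc
  br := h.br

theorem fsm (h : WW f N J P Cr η r₀ δ ρ) {κ : ℝ} (hκ : 0 < κ) : ∃ κ₁ : ℝ, 0 < κ₁ ∧ ∀ (η' : ℂ → ℂ) (z : ℂ) (m : ℕ) (x : ℂ)
    (R C : ℝ) (g : ℂ → ℂ), 0 < R → R < κ₁ → z ∈ J → Fr f N η' r₀ z m x R C g → ‖g x - z‖ ≤ κ₁ → R * ‖deriv g x‖ < κ := by
  obtain ⟨ε, hε, hns⟩ := h.ns (κ / 32) (by positivity)
  refine ⟨min (κ / 32) ε, lt_min (by positivity) hε, ?_⟩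
  intro η' z m x R C g hR hR1 hz hFr hgz
  by_contra hcon
  push Not at hcon
  have hgi := fr_inj hFr
  have hcov := Pool.Agent.H80.AJ.univ_cover hR hFr.gd hgi
  obtain ⟨w, hw, -, hw2⟩ := hns z m x (Or.inl hz)
  refine hw2 ?_
  have h1 : w ∈ ball (g x) (R * ‖deriv g x‖ / 16) := by
    rw [mem_ball] at hw ⊢
    have h2 : dist w (g x) ≤ dist w z + dist z (g x) := dist_triangle _ _ _
    rw [dist_comm z (g x), dist_eq_norm (g x) z] at h2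
    have h3 := hgz.trans (min_le_left _ _)
    linarith
  obtain ⟨y, hy, rfl⟩ := hcov h1
  rw [(hFr.gf y hy).2]
  exact ball_subset_ball (hR1.le.trans (min_le_right _ _)) hy

/-- a frame from a branch -/
theorem fr_mk {T : Set ℂ} {v : ℂ} {ηc : ℂ → ℂ} (h : WK f N P T v ηc r₀) {z x : ℂ} {m : ℕ} (hm : 1 ≤ m) {R C : ℝ} (hR : 0 < R) {g : ℂ → ℂ}
    (hgd : DifferentiableOn ℂ g (ball x R)) (hgf : ∀ u ∈ ball x R, (∀ j < m, f^[j] (g u) ∈ N) ∧ f^[m] (g u) = u)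
    (hz : ‖g x - z‖ ≤ C * (R * ‖deriv g x‖)) (hP : Disjoint (ball x R) P) (hb : ball x R ⊆ ball v (r₀ ^ 2))
    (hs : f^[m - 1] (g x) ∈ ηc '' ball 0 r₀) : Fr f N ηc r₀ z m x R C g := by
  obtain ⟨l, rfl⟩ : ∃ l, m = l + 1 := ⟨m - 1, by omega⟩
  rw [Nat.add_sub_cancel] at hs
  refine ⟨hgd, hgf, hz, ?_⟩
  rw [Nat.add_sub_cancel]
  refine sheet h hR (fun hv => Set.disjoint_left.1 hP hv h.vP) hb (k := fun u => f^[l] (g u)) ?_ ?_ (mem_ball_self hR) hs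
  · intro u hu
    exact ((wk_at h l fun j hj => (hgf u hu).1 j (by omega)).comp u
      (hgd.differentiableAt (isOpen_ball.mem_nhds hu))).differentiableWithinAt
  · intro u hu
    refine ⟨(hgf u hu).1 l (Nat.lt_succ_self l), ?_⟩
    show f (f^[l] (g u)) = u
    rw [← Function.iterate_succ_apply' f l]
    exact (hgf u hu).2

theorem wlk {A c₃ D C : ℝ} (hA : 1 ≤ A) (hc₃ : 0 < c₃) (hD : 0 < D) (hC : 1 ≤ C) : ∃ R₀ C' : ℝ, 0 < R₀ ∧ 1 ≤ C' ∧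
    ∀ {f : ℂ → ℂ} {N J P Cr : Set ℂ} {η : ℂ → ℂ → ℂ} {r₀ δ : ℝ} {ρ : ℂ → ENNReal}, WW f N J P Cr η r₀ δ ρ → ∀ c ∈ Cr,
    ∀ κ : ℝ, 0 < κ → ∃ κ₁ : ℝ, 0 < κ₁ ∧ ∀ (u : ℂ → ℝ) (r Λ ε : ℝ), Sc P ρ (f c) u r C Λ ε → C * r < κ₁ →
    ∀ (ψ gi : ℂ → ℂ) (t₁ : ℝ), DifferentiableOn ℂ ψ (ball 0 1) → DifferentiableOn ℂ gi {x | 1 / 3 < u x} →
    (∀ x ∈ ball (0 : ℂ) 1, 1 / 3 < u (ψ x) ∧ gi (ψ x) = x) → (∀ y, 1 / 3 < u y → gi y ∈ ball (0 : ℂ) 1 ∧ ψ (gi y) = y) →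
    t₁ < 1 → (∀ x ∈ ball (0 : ℂ) 1, 1 / 2 ≤ u (ψ x) → ‖x‖ < t₁) → ∀ z ∈ J, (∀ j, f^[j] z ∈ N) →
    Outc f N P (η c '' ball 0 r₀) (f c) u r A c₃ D κ₁ z →
    ∃ m : ℕ, 1 ≤ m ∧ f^[m - 1] z ∈ η c '' ball 0 r₀ ∧ ‖f^[m] z - f c‖ ≤ A * r ∧ ∃ x : ℂ, ‖x‖ = t₁ ∧ ∃ g : ℂ → ℂ,
      Fr f N (η c) r₀ z m (ψ x) (R₀ * r) C' g ∧ R₀ * r * ‖deriv g (ψ x)‖ < κ := by
  have hC0 : 0 < C := by linarith
  have hA0 : 0 < A := by linarith
  obtain ⟨cR, hcR⟩ : ∃ cR : ℝ, cR = min (min c₃ (1 / (4 * C))) 1 := ⟨_, rfl⟩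
  have hcR0 : 0 < cR := by rw [hcR]; exact lt_min (lt_min hc₃ (by positivity)) one_pos
  have hcR1 : cR ≤ 1 := by rw [hcR]; exact min_le_right _ _
  have hcR3 : cR ≤ c₃ := by rw [hcR]; exact (min_le_left _ _).trans (min_le_left _ _)
  have hcRC : cR ≤ 1 / (4 * C) := by rw [hcR]; exact (min_le_left _ _).trans (min_le_right _ _)
  obtain ⟨Cfa, hCfa, hfa⟩ := fa (A := A / cR) (D := D) (by positivity) hD
  obtain ⟨Cw, hCw, hwkc⟩ := wkc ((A + C) / cR) Cfa hCfa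
  have hCw0 : 0 ≤ Cw := hCfa.trans hCw
  refine ⟨cR, Cw + 1, hcR0, by linarith, ?_⟩
  intro f N J P Cr η r₀ δ ρ h c hc κ hκ
  have hr₀ := h.hr
  have hδ := h.hδ
  obtain ⟨κf, hκf, hfsm⟩ := fsm h (κ := κ / (Cw + 1)) (by positivity)
  obtain ⟨κ₁, hκ₁⟩ : ∃ κ₁ : ℝ, κ₁ = min κf (min δ (r₀ ^ 2) / (A + C + 1)) := ⟨_, rfl⟩
  have hAC : 0 < A + C + 1 := by linarith
  have hκ₁0 : 0 < κ₁ := by rw [hκ₁]; exact lt_min hκf (div_pos (lt_min hδ (by positivity)) hAC)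
  refine ⟨κ₁, hκ₁0, ?_⟩
  intro u r Λ ε hS hCr ψ gi θ₁ hψd hgd hψa hψb hθ1 hθ z hz hzN hO
  have hr := hS.r0
  have hrκ : r < κ₁ := by nlinarith
  have hrf : r < κf := hrκ.trans_le (by rw [hκ₁]; exact min_le_left _ _)
  have hrm : (A + C + 1) * r < min δ (r₀ ^ 2) := by
    have h1 : r < min δ (r₀ ^ 2) / (A + C + 1) := hrκ.trans_le (by rw [hκ₁]; exact min_le_right _ _)
    rwa [lt_div_iff₀ hAC, mul_comm] at h1
  have hδr : (A + C + 1) * r < δ := hrm.trans_le (min_le_left _ _)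
  have hr0r : (A + C + 1) * r < r₀ ^ 2 := hrm.trans_le (min_le_right _ _)
  have hR : 0 < cR * r := by positivity
  have hRf : cR * r < κf := by nlinarith
  have hWK := wk_ww h hc
  have hvP : f c ∈ P := h.Pf c (h.CP hc)
  have hu0 : ∀ p ∈ P, u p = 0 ∨ u p = 1 := fun p hp => hS.um.va p hp
  obtain ⟨m, hm, hmE, hcase⟩ := hO
  -- discs at points of distance at least `cR r` from `P`
  have hdisc : ∀ x : ℂ, ‖x - f c‖ ≤ (A + C) * r → (∀ p ∈ P, cR * r ≤ ‖x - p‖) →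
      ball x (cR * r) ⊆ thickening δ P ∧ Disjoint (ball x (cR * r)) P ∧ ball x (cR * r) ⊆ ball (f c) (r₀ ^ 2) := by
    intro x hx hxp
    have h1 : ∀ w ∈ ball x (cR * r), dist w (f c) < (A + C + 1) * r := by
      intro w hw
      have h2 := mem_ball.1 hw
      rw [← dist_eq_norm] at hx
      have h3 := dist_triangle w x (f c)
      nlinarith
    refine ⟨fun w hw => mem_thickening_iff.2 ⟨f c, hvP, (h1 w hw).trans hδr⟩, ?_, fun w hw => mem_ball.2 ((h1 w hw).trans hr0r)⟩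
    rw [Set.disjoint_left]
    intro w hw hwP
    have h2 := mem_ball.1 hw
    rw [dist_comm, dist_eq_norm] at h2
    exact absurd (hxp w hwP) (not_le.2 h2)
  -- the connection to the circle
  have hacc : ∀ G : Set ℂ, Ac P (f c) u r A c₃ G → ∃ G' : Set ℂ, IsPreconnected G' ∧ G ⊆ G' ∧ (∃ y : ℂ, ‖y‖ = θ₁ ∧ ψ y ∈ G') ∧
      ∀ x ∈ G', ‖x - f c‖ ≤ (A + C) * r ∧ ∀ p ∈ P, cR * r ≤ ‖x - p‖ := by
    rintro G ⟨hGc, hGb, hGp, s, hs, x₀, hx₀, hx₀f⟩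
    obtain ⟨S, hSc, hSf, hSy, hSu⟩ := sgm hS.um hS.uv hψd hgd hψa hψb hθ1 hθ hs.1 hs.2
    refine ⟨G ∪ S, IsPreconnected.union x₀ hx₀ (hSf hx₀f) hGc hSc, subset_union_left, ?_, ?_⟩
    · obtain ⟨y, hy, hyS⟩ := hSy
      exact ⟨y, hy, Or.inr hyS⟩
    · rintro x (hx | hx)
      · have h1 := hGb hx
        rw [mem_closedBall_iff_norm] at h1
        refine ⟨by nlinarith, fun p hp => (mul_le_mul_of_nonneg_right hcR3 hr.le).trans (hGp x hx p hp)⟩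
      · obtain ⟨h1, h2⟩ := hSu x hx
        have h3 := hS.sp x (by linarith)
        refine ⟨by nlinarith, fun p hp => ?_⟩
        have h4 := hS.lip x p
        have h5 : 1 / 4 ≤ |u x - u p| := by
          rcases hu0 p hp with h6 | h6
          · rw [h6, sub_zero, abs_of_pos (by linarith)]
            linarith
          · rw [h6, abs_sub_comm, abs_of_nonneg (by linarith)]
            linarith
        have h6 := h5.trans h4
        rw [div_mul_eq_mul_div, le_div_iff₀ hr] at h6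
        have h7 : cR * r ≤ 1 / (4 * C) * r := mul_le_mul_of_nonneg_right hcRC hr.le
        refine h7.trans ?_
        rw [div_mul_eq_mul_div, div_le_iff₀ (by positivity)]
        linarith
  -- the rest
  have hfin : ∀ G : Set ℂ, Ac P (f c) u r A c₃ G → ∀ x ∈ G, ∀ g₁ : ℂ → ℂ, Fr f N (η c) r₀ z m x (cR * r) Cfa g₁ → ‖g₁ x - z‖ ≤ κ₁ →
      ∃ y : ℂ, ‖y‖ = θ₁ ∧ ∃ g' : ℂ → ℂ, Fr f N (η c) r₀ z m (ψ y) (cR * r) (Cw + 1) g' ∧ cR * r * ‖deriv g' (ψ y)‖ < κ := by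
    intro G hGa x hx g₁ hFr hgz
    obtain ⟨G', hG'c, hGG', ⟨y, hy, hyG⟩, hG'⟩ := hacc G hGa
    have hGb : G' ⊆ closedBall (f c) ((A + C) / cR * (cR * r)) := by
      intro w hw
      rw [mem_closedBall_iff_norm]
      have e : (A + C) / cR * (cR * r) = (A + C) * r := by
        field_simp
      rw [e]
      exact (hG' w hw).1
    obtain ⟨g', h1, h2, -⟩ := hwkc hWK hG'c hR hGb (fun w hw => hdisc w (hG' w hw).1 (hG' w hw).2) hm x (hGG' hx) _ hyG g₁ hFr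
    refine ⟨y, hy, g', fr_mono hR.le (by linarith) h1, ?_⟩
    have h3 := hfsm (η c) z m x (cR * r) Cfa g₁ hR hRf hz hFr (hgz.trans (by rw [hκ₁]; exact min_le_left _ _))
    rw [lt_div_iff₀ (by linarith)] at h3
    calc cR * r * ‖deriv g' (ψ y)‖ ≤ cR * r * (Cw * ‖deriv g₁ x‖) := mul_le_mul_of_nonneg_left h2 hR.le
      _ ≤ cR * r * ‖deriv g₁ x‖ * (Cw + 1) := by nlinarith [mul_nonneg hR.le (norm_nonneg (deriv g₁ x))]
      _ < κ := h3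
  refine ⟨m, hm, hmE, ?_⟩
  rcases hcase with ⟨G, hGa, hzG⟩ | ⟨O, O₁, hPO, hzO, hOκ, hO₁, hAc⟩
  · -- case 1
    have hzb := hGa.2.1 hzG
    rw [mem_closedBall_iff_norm] at hzb
    refine ⟨hzb, ?_⟩
    obtain ⟨d1, d2, d3⟩ := hdisc (f^[m] z) (by nlinarith) fun p hp =>
      (mul_le_mul_of_nonneg_right hcR3 hr.le).trans (hGa.2.2.1 _ hzG p hp)
    obtain ⟨g₁, gd, g1, gf⟩ := h.br m (f^[m] z) z (cR * r) d1 d2 (fun j _ => hzN j) (mem_ball_self hR)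
    refine hfin G hGa (f^[m] z) hzG g₁ (fr_mk hWK hm hR gd gf ?_ d2 d3 (by rw [g1]; exact hmE)) (by rw [g1, sub_self, norm_zero]; exact hκ₁0.le)
    rw [g1, sub_self, norm_zero]
    positivity
  · -- case 2
    have hzb := hO₁ (hPO.mp z hzO)
    rw [mem_closedBall_iff_norm] at hzb
    refine ⟨hzb, ?_⟩
    have hcl : closure O₁ ⊆ closedBall (f c) (A * r) := closure_minimal hO₁ isClosed_closedBall
    obtain ⟨x, hx, g₁, hFr, hgx⟩ := hfa hWK (O := O) (O₁ := O₁) (R := cR * r) (z := z) (m := m) hR hm hPO hzO hmE (by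
      have e : A / cR * (cR * r) = A * r := by
        field_simp
      rw [e]
      exact hO₁) (fun w hw => by
      have h1 := mem_closedBall_iff_norm.1 (hcl hw)
      rw [mem_ball_iff_norm]
      nlinarith) (fun p hp => by
      have h1 := mem_closedBall_iff_norm.1 (hcl (frontier_subset_closure hp))
      exact hdisc p (by nlinarith) fun q hq => (mul_le_mul_of_nonneg_right hcR3 hr.le).trans (hAc.2.2.1 p hp q hq))
    refine hfin (frontier O₁) hAc x hx g₁ hFr ?_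
    have h1 : closure O ⊆ closedBall z κ₁ := closure_minimal (fun y hy => mem_closedBall_iff_norm.2 (hOκ y hy).le) isClosed_closedBall
    exact mem_closedBall_iff_norm.1 (h1 (frontier_subset_closure hgx))

end Pool.Agent.H47.LG
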