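import Pool.Agent.H47.LG.Acd
import Pool.Agent.H47.LG.Adv
import Pool.Agent.H47.LG.Adv1
import Pool.Agent.H47.LG.Adv2
import Pool.Agent.H47.LG.Advd
import Pool.Agent.H47.LG.Clw
import Pool.Agent.H47.LG.Cuta
import Pool.Agent.H47.LG.Ee
import Pool.Agent.H47.LG.Fa
import Pool.Agent.H47.LG.Mnp
import Pool.Agent.H47.LG.Near
import Pool.Agent.H47.LG.Omc
import Pool.Agent.H47.LG.Os
import Pool.Agent.H47.LG.Pbk
import Pool.Agent.H47.LG.Pbs
import Pool.Agent.H47.LG.Pfar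
import Pool.Agent.H47.LG.Pls
import Pool.Agent.H47.LG.Po
import Pool.Agent.H47.LG.Psg
import Pool.Agent.H47.LG.Psw
import Pool.Agent.H47.LG.Sgm
import Pool.Agent.H47.LG.Siz
import Pool.Agent.H47.LG.Smw
import Pool.Agent.H47.LG.Sta0
import Pool.Agent.H47.LG.Stp
import Pool.Agent.H47.LG.Sz
import Pool.Agent.H47.LG.Tc
import Pool.Agent.H47.LG.Uc
import Pool.Agent.H47.LG.Wd
import Pool.Agent.H47.LG.Wdf
import Pool.Agent.H47.LG.Wlk
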